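import Mathlib
import Pool.Agent.Helper69.HdMain

/-!
# Dimension shifting for resolutions by injective spaces
-/

set_option autoImplicit false

namespace Pool.Agent.Y277.IDC

open Set
open Pool.Agent.Helper69.Fd
open scoped ENNReal

variable {𝕜 : Type} [RCLike 𝕜]

/-- injective Banach spaces -/
def QI (X : Ban 𝕜) : Prop := IsInjectiveSpace 𝕜 X.C

theorem relInj_of_QI (Q : Ban 𝕜) (h : QI Q) : RelInj MB Q := by
  intro A B i hi T
  obtain ⟨c, hc⟩ := hi
  have hinj : Function.Injective i := by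
    rw [injective_iff_map_eq_zero]
    intro x hx
    have := hc x
    rw [hx, norm_zero, mul_zero] at this
    exact norm_le_zero_iff.1 this
  have hcl : IsClosed (LinearMap.range i.toLinearMap : Set B.C) := by
    have h1 : AntilipschitzWith (Real.toNNReal c) i := by
      apply AddMonoidHomClass.antilipschitz_of_bound
      intro x
      refine (hc x).trans (mul_le_mul_of_nonneg_right (Real.le_coe_toNNReal c) (norm_nonneg _))
    exact h1.isClosed_range i.uniformContinuous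
  let e : A.C ≃ₗ[𝕜] LinearMap.range i.toLinearMap := LinearEquiv.ofInjective i.toLinearMap hinj
  have he : ∀ a, ((e a : LinearMap.range i.toLinearMap) : B.C) = i a := fun a => rfl
  have hbound : ∀ y : LinearMap.range i.toLinearMap, ‖T (e.symm y)‖ ≤ ‖T‖ * |c| * ‖y‖ := by
    intro y
    have h1 : ‖e.symm y‖ ≤ |c| * ‖y‖ := by
      have h2 := hc (e.symm y)
      have h3 : ‖i (e.symm y)‖ = ‖y‖ := by
        rw [← he, e.apply_symm_apply]
        rfl
      rw [h3] at h2
      exact h2.trans (mul_le_mul_of_nonneg_right (le_abs_self c) (norm_nonneg _))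
    calc ‖T (e.symm y)‖ ≤ ‖T‖ * ‖e.symm y‖ := T.le_opNorm _
      _ ≤ ‖T‖ * (|c| * ‖y‖) := mul_le_mul_of_nonneg_left h1 (norm_nonneg _)
      _ = _ := by ring
  let S : LinearMap.range i.toLinearMap →L[𝕜] Q.C :=
    (T.toLinearMap.comp e.symm.toLinearMap).mkContinuous (‖T‖ * |c|) hbound
  obtain ⟨T', hT'⟩ := h B.C (LinearMap.range i.toLinearMap) hcl S
  refine ⟨T', fun a => ?_⟩
  have h1 := hT' (e a)
  rw [he] at h1
  rw [h1]
  show T (e.symm (e a)) = T a
  rw [e.symm_apply_apply]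

theorem IsInjectiveSpace.retract {X Y : Type} [NormedAddCommGroup X] [NormedSpace 𝕜 X]
    [NormedAddCommGroup Y] [NormedSpace 𝕜 Y] (h : IsInjectiveSpace 𝕜 X) (s : Y →L[𝕜] X)
    (q : X →L[𝕜] Y) (hs : ∀ y, q (s y) = y) : IsInjectiveSpace 𝕜 Y := by
  intro E _ _ _ F hF T
  obtain ⟨T', hT'⟩ := h E F hF (s.comp T)
  refine ⟨q.comp T', fun x => ?_⟩
  show q (T' x) = T x
  rw [hT']
  exact hs _

theorem coFrame_QI : CoFrame (𝕜 := 𝕜) MB QI where
  bdd := coFrame_MB.bdd
  isoM := coFrame_MB.isoM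
  comp := coFrame_MB.comp
  push := coFrame_MB.push
  quot := coFrame_MB.quot
  prodM := coFrame_MB.prodM
  iso := fun X Y ⟨e⟩ h => IsInjectiveSpace.retract (X := X.C) (Y := Y.C) h
    (e.symm : Y.C →L[𝕜] X.C) (e : X.C →L[𝕜] Y.C) (fun y => by simp)
  prod := fun X Y hX hY => by
    intro E _ _ _ F hF T
    obtain ⟨T1, h1⟩ := hX E F hF ((ContinuousLinearMap.fst 𝕜 X.C Y.C).comp T)
    obtain ⟨T2, h2⟩ := hY E F hF ((ContinuousLinearMap.snd 𝕜 X.C Y.C).comp T)
    exact ⟨T1.prod T2, fun x => Prod.ext (h1 x) (h2 x)⟩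
  fst := fun X Y h => IsInjectiveSpace.retract (X := X.C × Y.C) (Y := X.C) h
    (ContinuousLinearMap.inl 𝕜 X.C Y.C) (ContinuousLinearMap.fst 𝕜 X.C Y.C) (fun _ => rfl)
  coker := fun A B D i q hs hM hA hB => by
    obtain ⟨r, hr⟩ := relInj_of_QI A hA A B i hM (ContinuousLinearMap.id 𝕜 A.C)
    have hr' : ∀ a, r (i a) = a := hr
    obtain ⟨s, hs'⟩ := factor q hs.surj (ContinuousLinearMap.id 𝕜 B.C - i.comp r) (fun b hb => by
      obtain ⟨a, rfl⟩ := (hs.ex b).1 hb
      show i a - i (r (i a)) = 0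
      rw [hr', sub_self])
    refine IsInjectiveSpace.retract (X := B.C) (Y := D.C) hB s q (fun y => ?_)
    obtain ⟨b, rfl⟩ := hs.surj y
    rw [hs']
    show q (b - i (r b)) = q b
    rw [map_sub, (hs.ex (i (r b))).2 ⟨_, rfl⟩, sub_zero]
  enough := fun X => by
    obtain ⟨I, i, h1, h2, -⟩ := coFrame_MB.enough X
    exact ⟨I, i, h1, h2, isInjectiveSpace_of_relInj I h2⟩

/-- resolutions of length `n` by injective spaces -/
theorem HasInjRes.gmQI {X : Type} [NormedAddCommGroup X] [NormedSpace 𝕜 X] [CompleteSpace X]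
    {m n : ℕ} (hmn : m ≤ n) (h : HasInjRes 𝕜 X m) : Gm MB QI n (⟨X⟩ : Ban 𝕜) := by
  obtain ⟨R, h1, h2⟩ := h
  exact gm_of_coresolution coFrame_QI MB_of_SES n ⟨X⟩ R h1 (fun i hi => h2 i (hmn.trans_lt hi))

end Pool.Agent.Y277.IDC
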