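import Mathlib

/-!
# Coherent small subsets of the points of a successor cardinal

For a regular cardinal `κ` and `β < κ⁺` sets `F β ν`, `ν < κ`, of size less than `κ`, such that for
`α < β` eventually `α ∈ F β ν` and `F β ν ∩ α = F α ν`. They give an almost disjoint family of
subsets of a set of size `κ` which is uniformly disjoint below every `β < κ⁺`.
-/

set_option autoImplicit false

namespace Pool.Agent.Y277.IDC

open Set Cardinal

/-- a well order in which initial segments are smaller than `κ` and sets smaller than `κ` are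
bounded -/
structure RegOrd (κ : Cardinal.{0}) (V : Type) [LinearOrder V] : Prop where
  reg : κ.IsRegular
  wf : WellFoundedLT V
  card : #V = κ
  small : ∀ v : V, #(Iio v) < κ
  bdd : ∀ S : Set V, #S < κ → ∃ b, ∀ x ∈ S, x < b

theorem exists_regOrd (κ : Cardinal.{0}) (hκ : κ.IsRegular) :
    ∃ (V : Type) (_ : LinearOrder V), RegOrd κ V := by
  have hinf := hκ.aleph0_le
  have hsmall : ∀ v : κ.ord.ToType, #(Iio v) < κ := fun v => Cardinal.mk_Iio_toType_ord_lt (c := κ) v
  refine ⟨κ.ord.ToType, inferInstance, hκ, inferInstance, by simp, hsmall, ?_⟩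
  intro S hS
  by_contra hcon
  push Not at hcon
  have hcov : (⋃ x : S, Iic (x : κ.ord.ToType)) = Set.univ := by
    ext b
    simp only [mem_iUnion, mem_Iic, mem_univ, iff_true]
    obtain ⟨x, hx, hbx⟩ := hcon b
    exact ⟨⟨x, hx⟩, hbx⟩
  have hIic : ∀ x : κ.ord.ToType, #(Iic x) < κ := by
    intro x
    have : (Iic x : Set κ.ord.ToType) = Iio x ∪ {x} := by
      ext y; simp [le_iff_lt_or_eq]
    rw [this]
    exact (Cardinal.mk_union_le _ _).trans_lt (Cardinal.add_lt_of_lt hinf (hsmall x)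
      (by rw [Cardinal.mk_singleton]; exact Cardinal.one_lt_aleph0.trans_le hinf))
  have h1 : #(⋃ x : S, Iic (x : κ.ord.ToType)) < κ :=
    (Cardinal.card_iUnion_lt_iff_forall_of_isRegular hκ hS).2 (fun x => hIic x)
  rw [hcov, Cardinal.mk_univ] at h1
  simp at h1

variable {κ : Cardinal.{0}} {V W : Type} [LinearOrder V] [LinearOrder W]

theorem RegOrd.small' (hV : RegOrd κ V) (v : V) : #(Iic v) < κ := by
  have : (Iic v : Set V) = Iio v ∪ {v} := by
    ext y; simp [le_iff_lt_or_eq]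
  rw [this]
  exact (Cardinal.mk_union_le _ _).trans_lt (Cardinal.add_lt_of_lt hV.reg.aleph0_le (hV.small v)
    (by rw [Cardinal.mk_singleton]; exact Cardinal.one_lt_aleph0.trans_le hV.reg.aleph0_le))

/-- `ν` is good for `μ` at stage `β` -/
def Good (e : W → W → V) (R : W → V → Set W) (β : W) (μ ν : V) : Prop :=
  μ ≤ ν ∧ ∀ α' < β, ∀ α < α', e β α ≤ μ → e β α' ≤ μ → ∀ ν' ≥ ν,
    α ∈ R α' ν' ∧ ∀ ξ < α, (ξ ∈ R α' ν' ↔ ξ ∈ R α ν')

/-- one step of the recursion -/
def body (e : W → W → V) (R : W → V → Set W) (β : W) : V → Set W :=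
  fun ν => {ξ | ∃ α < β, Good e R β (e β α) ν ∧ (ξ = α ∨ ξ ∈ R α ν)}

omit [LinearOrder V] in
theorem good_congr [LinearOrder V] (e : W → W → V) (R R' : W → V → Set W) (β : W)
    (h : ∀ α < β, R α = R' α) (μ ν : V) (hG : Good e R β μ ν) : Good e R' β μ ν := by
  refine ⟨hG.1, fun α' hα' α hα h1 h2 ν' hν' => ?_⟩
  have := hG.2 α' hα' α hα h1 h2 ν' hν'
  rw [h α' hα', h α (hα.trans hα')] at this
  exact this

theorem body_congr (e : W → W → V) (R R' : W → V → Set W) (β : W)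
    (h : ∀ α < β, R α = R' α) : body e R β = body e R' β := by
  funext ν
  ext ξ
  constructor
  · rintro ⟨α, hα, hG, h1⟩
    exact ⟨α, hα, good_congr e R R' β h _ _ hG, by rwa [← h α hα]⟩
  · rintro ⟨α, hα, hG, h1⟩
    exact ⟨α, hα, good_congr e R' R β (fun a ha => (h a ha).symm) _ _ hG, by rwa [h α hα]⟩

theorem exists_F [WellFoundedLT W] (e : W → W → V) :
    ∃ F : W → V → Set W, ∀ β, F β = body e F β := by
  classical
  let G : (β : W) → ((α : W) → α < β → V → Set W) → V → Set W := fun β rec =>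
    body e (fun α => if h : α < β then rec α h else fun _ => ∅) β
  let F : W → V → Set W := wellFounded_lt.fix G
  refine ⟨F, fun β => ?_⟩
  have h1 : F β = G β (fun α _ => F α) := wellFounded_lt.fix_eq G β
  rw [h1]
  apply body_congr
  intro α hα
  simp [hα]

/-- coherence -/
theorem coherent (hV : RegOrd κ V) (e : W → W → V) (he : ∀ β, InjOn (e β) (Iio β))
    [WellFoundedLT W] (F : W → V → Set W) (hF : ∀ β, F β = body e F β) (β : W) :
    (∀ ν, F β ν ⊆ Iio β) ∧ (∀ ν, #(F β ν) < κ) ∧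
      ∀ α < β, ∃ ν₀, ∀ ν ≥ ν₀, α ∈ F β ν ∧ ∀ ξ < α, (ξ ∈ F β ν ↔ ξ ∈ F α ν) := by
  have hreg := hV.reg
  have hinf := hreg.aleph0_le
  induction β using WellFoundedLT.induction with
  | ind β ih =>
    have hmem : ∀ ν ξ, ξ ∈ F β ν ↔ ∃ α < β, Good e F β (e β α) ν ∧ (ξ = α ∨ ξ ∈ F α ν) := by
      intro ν ξ
      rw [hF β]
      rfl
    refine ⟨?_, ?_, ?_⟩
    · intro ν ξ hξ
      obtain ⟨α, hα, -, h1 | h1⟩ := (hmem ν ξ).1 hξ
      · rw [h1]; exact hα
      · exact ((ih α hα).1 ν h1).trans hα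
    · intro ν
      have hS : #{α | α < β ∧ e β α ≤ ν} < κ := by
        refine lt_of_le_of_lt ?_ (hV.small' ν)
        have hinj : InjOn (e β) {α | α < β ∧ e β α ≤ ν} := fun a ha b hb => he β ha.1 hb.1
        rw [← Cardinal.mk_image_eq_of_injOn _ _ hinj]
        apply Cardinal.mk_le_mk_of_subset
        rintro _ ⟨a, ha, rfl⟩
        exact ha.2
      have hsub : F β ν ⊆ ⋃ α, ⋃ (_ : α ∈ {α | α < β ∧ e β α ≤ ν}), ({α} ∪ F α ν) := by
        intro ξ hξ
        obtain ⟨α, hα, hG, h1⟩ := (hmem ν ξ).1 hξ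
        simp only [mem_iUnion]
        exact ⟨α, ⟨hα, hG.1⟩, h1⟩
      refine (Cardinal.mk_le_mk_of_subset hsub).trans_lt ?_
      rw [Cardinal.card_biUnion_lt_iff_forall_of_isRegular hreg hS]
      intro α hα
      exact (Cardinal.mk_union_le _ _).trans_lt (Cardinal.add_lt_of_lt hinf
        (by rw [Cardinal.mk_singleton]; exact Cardinal.one_lt_aleph0.trans_le hinf)
        ((ih α hα.1).2.1 ν))
    · intro α hα
      -- large ν are good for `e β α`
      have hgood : ∃ ν₀, ∀ ν ≥ ν₀, Good e F β (e β α) ν := by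
        let A : Set W := {a | a < β ∧ e β a ≤ e β α}
        have hA : #A < κ := by
          refine lt_of_le_of_lt ?_ (hV.small' (e β α))
          have hinj : InjOn (e β) A := fun a ha b hb => he β ha.1 hb.1
          rw [← Cardinal.mk_image_eq_of_injOn _ _ hinj]
          apply Cardinal.mk_le_mk_of_subset
          rintro _ ⟨a, ha, rfl⟩
          exact ha.2
        have hc : ∀ p : A × A, ∃ ν₀, p.1.1 < p.2.1 → ∀ ν ≥ ν₀, p.1.1 ∈ F p.2.1 ν ∧
            ∀ ξ < p.1.1, (ξ ∈ F p.2.1 ν ↔ ξ ∈ F p.1.1 ν) := by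
          rintro ⟨⟨a, ha⟩, ⟨b, hb⟩⟩
          by_cases hab : a < b
          · obtain ⟨ν₀, h⟩ := (ih b hb.1).2.2 a hab
            exact ⟨ν₀, fun _ => h⟩
          · exact ⟨e β α, fun h => absurd h hab⟩
        choose c hc using hc
        have hAA : #(A × A) < κ := by
          rw [Cardinal.mk_prod]
          simp only [Cardinal.lift_id]
          exact Cardinal.mul_lt_of_lt hinf hA hA
        obtain ⟨b, hb⟩ := hV.bdd (insert (e β α) (range c)) (by
          refine (Cardinal.mk_insert_le).trans_lt (Cardinal.add_lt_of_lt hinf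
            (Cardinal.mk_range_le.trans_lt hAA) (Cardinal.one_lt_aleph0.trans_le hinf)))
        refine ⟨b, fun ν hν => ⟨?_, ?_⟩⟩
        · exact (hb _ (mem_insert _ _)).le.trans hν
        · intro α₂ h2 α₁ h1 e1 e2 ν' hν'
          have hm1 : α₁ ∈ A := ⟨h1.trans h2, e1⟩
          have hm2 : α₂ ∈ A := ⟨h2, e2⟩
          apply hc (⟨α₁, hm1⟩, ⟨α₂, hm2⟩) h1 ν'
          exact ((hb _ (mem_insert_of_mem _ ⟨(⟨α₁, hm1⟩, ⟨α₂, hm2⟩), rfl⟩)).le.trans hν).trans hν'
      obtain ⟨ν₀, hν₀⟩ := hgood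
      refine ⟨ν₀, fun ν hν => ⟨(hmem ν α).2 ⟨α, hα, hν₀ ν hν, Or.inl rfl⟩, ?_⟩⟩
      intro ξ hξ
      constructor
      · intro h
        obtain ⟨α', hα', hG', h1⟩ := (hmem ν ξ).1 h
        have hG := hν₀ ν hν
        -- a common good bound
        have key : ∀ a b, a < b → b < β → (a = α ∧ b = α' ∨ a = α' ∧ b = α) →
            a ∈ F b ν ∧ ∀ ξ < a, (ξ ∈ F b ν ↔ ξ ∈ F a ν) := by
          intro a b hab hb hcase
          rcases le_total (e β α) (e β α') with hle | hle
          · refine hG'.2 b hb a hab ?_ ?_ ν le_rfl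
            · rcases hcase with ⟨h1, h2⟩ | ⟨h1, h2⟩
              · rw [h1]; exact hle
              · rw [h1]
            · rcases hcase with ⟨h1, h2⟩ | ⟨h1, h2⟩
              · rw [h2]
              · rw [h2]; exact hle
          · refine hG.2 b hb a hab ?_ ?_ ν le_rfl
            · rcases hcase with ⟨h1, h2⟩ | ⟨h1, h2⟩
              · rw [h1]
              · rw [h1]; exact hle
            · rcases hcase with ⟨h1, h2⟩ | ⟨h1, h2⟩
              · rw [h2]; exact hle
              · rw [h2]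
        rcases lt_trichotomy α' α with hlt | heq | hgt
        · obtain ⟨k1, k2⟩ := key α' α hlt hα (Or.inr ⟨rfl, rfl⟩)
          rcases h1 with h1 | h1
          · rw [h1]; exact k1
          · exact (k2 ξ ((ih α' hα').1 ν h1)).2 h1
        · rcases h1 with h1 | h1
          · rw [h1, heq] at hξ
            exact absurd hξ (lt_irrefl _)
          · rwa [heq] at h1
        · obtain ⟨k1, k2⟩ := key α α' hgt hα' (Or.inl ⟨rfl, rfl⟩)
          rcases h1 with h1 | h1
          · rw [h1] at hξ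
            exact absurd (hξ.trans hgt) (lt_irrefl _)
          · exact (k2 ξ hξ).1 h1
      · intro h
        exact (hmem ν ξ).2 ⟨α, hα, hν₀ ν hν, Or.inr h⟩


/-- the order type of a set -/
noncomputable def ot [WellFoundedLT W] (T : Set W) : Ordinal.{0} :=
  Ordinal.type (fun a b : T => a < b)

theorem ot_lt [WellFoundedLT W] (S : Set W) (ξ ξ' : W) (hξ : ξ ∈ S) (h : ξ < ξ') :
    ot (S ∩ Iio ξ) < ot (S ∩ Iio ξ') := by
  unfold ot
  rw [Ordinal.type_lt_iff]
  refine ⟨⟨⟨⟨fun x => ⟨x.1, x.2.1, lt_trans x.2.2 h⟩, ?_⟩, ?_⟩, ⟨ξ, hξ, h⟩, ?_⟩⟩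
  · intro a b hab
    exact Subtype.ext (congrArg (fun y : ↥(S ∩ Iio ξ') => (y : W)) hab)
  · intro a b
    exact Iff.rfl
  · rintro ⟨b, hb1, hb2⟩
    constructor
    · rintro ⟨x, hx⟩
      have : b = x.1 := (congrArg Subtype.val hx).symm
      show b < ξ
      rw [this]
      exact x.2.2
    · intro hb
      exact ⟨⟨b, hb1, hb⟩, rfl⟩

theorem exists_lab (hV : RegOrd κ V) [WellFoundedLT W] :
    ∃ lab : Set W → V, ∀ S : Set W, #S < κ → ∀ ξ ∈ S, ∀ ξ' ∈ S, ξ ≠ ξ' →
      lab (S ∩ Iio ξ) ≠ lab (S ∩ Iio ξ') := by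
  classical
  have h1 : #κ.ord.ToType = #V := by rw [hV.card]; simp
  obtain ⟨φ⟩ := Cardinal.eq.1 h1
  have hne : Nonempty V := by
    rw [← Cardinal.mk_ne_zero_iff, hV.card]
    exact hV.reg.pos.ne'
  have hsmall : ∀ T : Set W, #T < κ → ot T < κ.ord := by
    intro T hT
    rw [Cardinal.lt_ord]
    simpa [ot] using hT
  refine ⟨fun T => if h : #T < κ then φ (Ordinal.ToType.mk ⟨ot T, hsmall T h⟩) else
    Classical.arbitrary V, ?_⟩
  intro S hS ξ hξ ξ' hξ' hne'
  have hlt : ∀ x, #(S ∩ Iio x : Set W) < κ := fun x =>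
    (Cardinal.mk_le_mk_of_subset inter_subset_left).trans_lt hS
  simp only [hlt, dif_pos]
  intro heq
  have h2 := φ.injective heq
  have h3 := Ordinal.ToType.mk.injective h2
  have h4 : ot (S ∩ Iio ξ) = ot (S ∩ Iio ξ') := congrArg Subtype.val h3
  rcases lt_or_gt_of_ne hne' with h | h
  · exact absurd h4 (ot_lt S ξ ξ' hξ h).ne
  · exact absurd h4 (ot_lt S ξ' ξ hξ' h).ne'

/-- partial maps `G β` from a set of size `κ` to `β < κ⁺` with large fibres, coherent up to sets
smaller than `κ` -/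
theorem exists_ad (κ : Cardinal.{0}) (hκ : κ.IsRegular) :
    ∃ (W : Type) (_ : LinearOrder W) (N : Type) (G : W → N → Option W),
      RegOrd (Order.succ κ) W ∧ #N = κ ∧ (∀ β n ξ, G β n = some ξ → ξ < β) ∧
      (∀ β, ∀ ξ < β, κ ≤ #{n | G β n = some ξ}) ∧
      ∀ α β, α ≤ β → #{n | ∃ ξ < α, ¬ (G α n = some ξ ↔ G β n = some ξ)} < κ := by
  classical
  have hinf := hκ.aleph0_le
  obtain ⟨V, _, hV⟩ := exists_regOrd κ hκ
  obtain ⟨W, _, hW⟩ := exists_regOrd (Order.succ κ) (Cardinal.isRegular_succ hinf)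
  have := hW.wf
  have := hV.wf
  have hne : Nonempty V := by
    rw [← Cardinal.mk_ne_zero_iff, hV.card]
    exact hV.reg.pos.ne'
  have h1 : ∀ β : W, ∃ e : W → V, InjOn e (Iio β) := by
    intro β
    have h2 : #(Iio β) ≤ #V := by
      rw [hV.card]
      exact Order.lt_succ_iff.1 (hW.small β)
    obtain ⟨f⟩ := Cardinal.le_def _ _ |>.1 h2
    refine ⟨fun a => if h : a < β then f ⟨a, h⟩ else Classical.arbitrary V, ?_⟩
    intro a ha b hb hab
    have ha' : a < β := ha
    have hb' : b < β := hb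
    simp only [ha', hb', dif_pos] at hab
    exact congrArg Subtype.val (f.injective hab)
  choose e he using h1
  obtain ⟨F, hF⟩ := exists_F (V := V) e
  have hco := coherent hV e he F hF
  obtain ⟨lab, hlab⟩ := exists_lab (W := W) hV
  have huniq : ∀ β ν ξ ξ', ξ ∈ F β ν → ξ' ∈ F β ν →
      lab (F β ν ∩ Iio ξ) = lab (F β ν ∩ Iio ξ') → ξ = ξ' := by
    intro β ν ξ ξ' h1 h2 h3
    by_contra hne
    exact hlab _ ((hco β).2.1 ν) ξ h1 ξ' h2 hne h3
  let G : W → V × V → Option W := fun β n =>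
    if h : ∃ ξ ∈ F β n.1, lab (F β n.1 ∩ Iio ξ) = n.2 then some h.choose else none
  have hG : ∀ β n ξ, G β n = some ξ ↔ ξ ∈ F β n.1 ∧ lab (F β n.1 ∩ Iio ξ) = n.2 := by
    intro β n ξ
    by_cases h : ∃ ξ ∈ F β n.1, lab (F β n.1 ∩ Iio ξ) = n.2
    · have e1 : G β n = some h.choose := by simp only [G, dif_pos h]
      rw [e1, Option.some_inj]
      constructor
      · intro h2
        rw [← h2]
        exact h.choose_spec
      · intro h2
        exact huniq β n.1 _ _ h.choose_spec.1 h2.1 (h.choose_spec.2.trans h2.2.symm)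
    · have e1 : G β n = none := by simp only [G, dif_neg h]
      rw [e1]
      constructor
      · intro h2
        exact absurd h2 (by simp)
      · intro h2
        exact absurd ⟨ξ, h2⟩ h
  refine ⟨W, inferInstance, V × V, G, hW, ?_, ?_, ?_, ?_⟩
  · rw [Cardinal.mk_prod]
    simp only [Cardinal.lift_id, hV.card]
    exact Cardinal.mul_eq_self hinf
  · intro β n ξ h
    exact (hco β).1 _ ((hG β n ξ).1 h).1
  · intro β ξ hξ
    obtain ⟨ν₀, hν₀⟩ := (hco β).2.2 ξ hξ
    have hsub : (fun ν => (ν, lab (F β ν ∩ Iio ξ))) '' (Ici ν₀) ⊆ {n | G β n = some ξ} := by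
      rintro _ ⟨ν, hν, rfl⟩
      exact (hG β _ ξ).2 ⟨(hν₀ ν hν).1, rfl⟩
    refine le_trans ?_ (Cardinal.mk_le_mk_of_subset hsub)
    rw [Cardinal.mk_image_eq_of_injOn _ _ (fun a _ b _ hab => congrArg Prod.fst hab)]
    by_contra hcon
    push Not at hcon
    have h2 : (Set.univ : Set V) = Iio ν₀ ∪ Ici ν₀ := by
      ext x; simp
    have h3 : #(Set.univ : Set V) < κ := by
      rw [h2]
      exact (Cardinal.mk_union_le _ _).trans_lt (Cardinal.add_lt_of_lt hinf (hV.small ν₀) hcon)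
    rw [Cardinal.mk_univ, hV.card] at h3
    exact lt_irrefl _ h3
  · intro α β hαβ
    rcases eq_or_lt_of_le hαβ with rfl | hlt
    · have : {n | ∃ ξ < α, ¬ (G α n = some ξ ↔ G α n = some ξ)} = ∅ := by
        ext n; simp
      rw [this]
      simpa using hκ.pos
    obtain ⟨ν₀, hν₀⟩ := (hco β).2.2 α hlt
    have hsub : {n | ∃ ξ < α, ¬ (G α n = some ξ ↔ G β n = some ξ)} ⊆
        ⋃ ν : Iio ν₀, ((fun ξ => (ν.1, lab (F α ν.1 ∩ Iio ξ))) '' (F α ν.1) ∪
          (fun ξ => (ν.1, lab (F β ν.1 ∩ Iio ξ))) '' (F β ν.1)) := by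
      rintro ⟨ν, μ⟩ ⟨ξ, hξ, hn⟩
      have hlt' : ν < ν₀ := by
        by_contra hcon
        push Not at hcon
        apply hn
        have hh := (hν₀ ν hcon).2
        rw [hG, hG]
        have e2 : F α ν ∩ Iio ξ = F β ν ∩ Iio ξ := by
          ext x
          constructor
          · rintro ⟨h1, h2⟩
            exact ⟨(hh x (lt_trans h2 hξ)).2 h1, h2⟩
          · rintro ⟨h1, h2⟩
            exact ⟨(hh x (lt_trans h2 hξ)).1 h1, h2⟩
        show (ξ ∈ F α ν ∧ lab (F α ν ∩ Iio ξ) = μ) ↔ (ξ ∈ F β ν ∧ lab (F β ν ∩ Iio ξ) = μ)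
        rw [e2, hh ξ hξ]
      simp only [mem_iUnion]
      refine ⟨⟨ν, hlt'⟩, ?_⟩
      by_cases h1 : G α (ν, μ) = some ξ
      · left
        obtain ⟨h2, h3⟩ := (hG α (ν, μ) ξ).1 h1
        exact ⟨ξ, h2, Prod.ext rfl h3⟩
      · right
        have h4 : G β (ν, μ) = some ξ := by
          by_contra h5
          exact hn ⟨fun h => absurd h h1, fun h => absurd h h5⟩
        obtain ⟨h2, h3⟩ := (hG β (ν, μ) ξ).1 h4
        exact ⟨ξ, h2, Prod.ext rfl h3⟩
    refine (Cardinal.mk_le_mk_of_subset hsub).trans_lt ?_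
    rw [Cardinal.card_iUnion_lt_iff_forall_of_isRegular hκ (hV.small ν₀)]
    intro ν
    exact (Cardinal.mk_union_le _ _).trans_lt (Cardinal.add_lt_of_lt hinf
      (Cardinal.mk_image_le.trans_lt ((hco α).2.1 _))
      (Cardinal.mk_image_le.trans_lt ((hco β).2.1 _)))

end Pool.Agent.Y277.IDC
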