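import Mathlib

/-!
# Rosenthal's disjointification lemma for functionals on `ℓ_∞(I)`
-/

set_option autoImplicit false

namespace Pool.Agent.Y277.IDC

open Set Cardinal
open scoped ENNReal

/-- bounded functions -/
abbrev LI (𝕜 : Type) [RCLike 𝕜] (I : Type) : Type := lp (fun _ : I => 𝕜) ∞

variable {𝕜 : Type} [RCLike 𝕜] {I : Type}

/-- the variation of `m` on `A` is at most `c` -/
def VarLe (m : LI 𝕜 I →L[𝕜] 𝕜) (A : Set I) (c : ℝ) : Prop :=
  ∀ f : LI 𝕜 I, (∀ i, ‖f i‖ ≤ 1) → (∀ i, i ∉ A → f i = 0) → ‖m f‖ ≤ c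

theorem VarLe.mono {m : LI 𝕜 I →L[𝕜] 𝕜} {A B : Set I} {c : ℝ} (h : VarLe m B c) (hAB : A ⊆ B) :
    VarLe m A c := fun f hf hA => h f hf (fun i hi => hA i (fun h => hi (hAB h)))

theorem exists_rot (z : 𝕜) : ∃ a : 𝕜, ‖a‖ = 1 ∧ a * z = (‖z‖ : 𝕜) := by
  rcases eq_or_ne z 0 with rfl | hz
  · exact ⟨1, by simp, by simp⟩
  · have hz' : (‖z‖ : 𝕜) ≠ 0 := by
      rw [Ne, RCLike.ofReal_eq_zero]
      exact norm_ne_zero_iff.2 hz
    refine ⟨(‖z‖ : 𝕜) / z, ?_, ?_⟩
    · rw [norm_div, RCLike.norm_ofReal, abs_of_nonneg (norm_nonneg _)]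
      exact div_self (norm_ne_zero_iff.2 hz)
    · exact div_mul_cancel₀ _ hz

theorem varLe_split (m : LI 𝕜 I →L[𝕜] 𝕜) (A B : Set I) (M ε : ℝ) (hAB : ∀ i, i ∈ A → i ∉ B)
    (h : VarLe m (A ∪ B) M) (hA : ¬ VarLe m A ε) : VarLe m B (M - ε) := by
  unfold VarLe at hA
  push Not at hA
  obtain ⟨f, hf1, hf2, hf3⟩ := hA
  intro g hg1 hg2
  obtain ⟨a, ha1, ha2⟩ := exists_rot (m f)
  obtain ⟨b, hb1, hb2⟩ := exists_rot (m g)
  have h1 : m (a • f + b • g) = ((‖m f‖ + ‖m g‖ : ℝ) : 𝕜) := by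
    rw [map_add, map_smul, map_smul, smul_eq_mul, smul_eq_mul, ha2, hb2]
    push_cast
    rfl
  have hval : ∀ i, (a • f + b • g : LI 𝕜 I) i = a * f i + b * g i := fun i => by
    rw [lp.coeFn_add, Pi.add_apply, lp.coeFn_smul, lp.coeFn_smul, Pi.smul_apply, Pi.smul_apply,
      smul_eq_mul, smul_eq_mul]
  have h2 : ‖m (a • f + b • g)‖ ≤ M := by
    apply h
    · intro i
      rw [hval]
      by_cases hi : i ∈ A
      · rw [hg2 i (hAB i hi), mul_zero, add_zero, norm_mul, ha1, one_mul]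
        exact hf1 i
      · rw [hf2 i hi, mul_zero, zero_add, norm_mul, hb1, one_mul]
        exact hg1 i
    · intro i hi
      rw [hval, hf2 i (fun h => hi (Or.inl h)), hg2 i (fun h => hi (Or.inr h)), mul_zero, mul_zero,
        add_zero]
  rw [h1, RCLike.norm_ofReal, abs_of_nonneg (add_nonneg (norm_nonneg _) (norm_nonneg _))] at h2
  linarith

/-- Rosenthal's lemma -/
theorem rosenthal {κ : Cardinal.{0}} (hκ : ℵ₀ ≤ κ) (m : I → LI 𝕜 I →L[𝕜] 𝕜) {ε : ℝ} (hε : 0 < ε)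
    (n : ℕ) : ∀ S : Set I, #S = κ → (∀ i ∈ S, VarLe (m i) S (n * ε)) →
      ∃ C ⊆ S, #C = κ ∧ ∀ i ∈ C, VarLe (m i) (C \ {i}) ε := by
  classical
  induction n with
  | zero =>
    intro S hS h
    refine ⟨S, subset_rfl, hS, fun i hi f hf1 hf2 => ?_⟩
    have := (h i hi).mono sdiff_subset f hf1 hf2
    simp only [Nat.cast_zero, zero_mul] at this
    linarith
  | succ n ih =>
    intro S hS h
    have h1 : #(S × S) = #S := by
      rw [Cardinal.mk_prod]
      simp only [Cardinal.lift_id, hS]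
      exact Cardinal.mul_eq_self hκ
    obtain ⟨φ⟩ := Cardinal.eq.1 h1
    let P : S → Set I := fun k => range (fun x : S => (φ (k, x) : I))
    have hPS : ∀ k, P k ⊆ S := by
      rintro k _ ⟨x, rfl⟩
      exact (φ (k, x)).2
    have hPdisj : ∀ k k', ∀ i, i ∈ P k → i ∈ P k' → k = k' := by
      rintro k k' i ⟨x, rfl⟩ ⟨y, hy⟩
      have := φ.injective (Subtype.ext hy)
      exact (congrArg Prod.fst this).symm
    have hPcard : ∀ k, #(P k) = κ := by
      intro k
      rw [← hS]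
      refine Cardinal.mk_range_eq _ ?_
      intro x y hxy
      exact congrArg Prod.snd (φ.injective (Subtype.ext hxy))
    by_cases hcase : ∃ k, ∀ i ∈ P k, VarLe (m i) (P k \ {i}) ε
    · obtain ⟨k, hk⟩ := hcase
      exact ⟨P k, hPS k, hPcard k, hk⟩
    · push Not at hcase
      choose i hi hnot using hcase
      have hinj : Function.Injective i := by
        intro k k' hkk
        exact hPdisj k k' (i k) (hi k) (hkk ▸ hi k')
      have hsub : range i ⊆ S := by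
        rintro _ ⟨k, rfl⟩
        exact hPS k (hi k)
      obtain ⟨C, hC1, hC2, hC3⟩ := ih (range i) (by rw [Cardinal.mk_range_eq _ hinj, hS]) (by
        rintro _ ⟨k, rfl⟩
        have h2 := varLe_split (m (i k)) (P k \ {i k}) (range i) ((n + 1 : ℕ) * ε) ε ?_ ?_ (hnot k)
        · have e1 : ((n + 1 : ℕ) : ℝ) * ε - ε = n * ε := by push_cast; ring
          rwa [e1] at h2
        · rintro _ ⟨hx1, hx2⟩ ⟨k', rfl⟩
          apply hx2
          rw [hPdisj k k' (i k') hx1 (hi k')]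
          rfl
        · refine (h (i k) (hPS k (hi k))).mono ?_
          rintro x (hx | hx)
          · exact hPS k hx.1
          · exact hsub hx)
      exact ⟨C, hC1.trans hsub, hC2, hC3⟩

end Pool.Agent.Y277.IDC
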