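import Mathlib
import Pool.Agent.Y277.IDC.Coh
import Pool.Agent.Y277.IDC.Ros

/-!
# Spaces of bounded functions and separated families
-/

set_option autoImplicit false

namespace Pool.Agent.Y277.IDC

open Set Cardinal
open scoped ENNReal

variable {𝕜 : Type} [RCLike 𝕜]

/-- a function bounded by `c` as a member of `ℓ_∞(I)` -/
def mkLI {I : Type} (f : I → 𝕜) (c : ℝ) (h : ∀ i, ‖f i‖ ≤ c) : LI 𝕜 I :=
  ⟨f, memℓp_infty ⟨c, by rintro _ ⟨i, rfl⟩; exact h i⟩⟩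

@[simp] theorem mkLI_apply {I : Type} (f : I → 𝕜) (c : ℝ) (h : ∀ i, ‖f i‖ ≤ c) (i : I) :
    (mkLI f c h) i = f i := rfl

open Classical in
/-- the indicator function of `A` -/
noncomputable def ind (𝕜 : Type) [RCLike 𝕜] {I : Type} (A : Set I) : LI 𝕜 I :=
  mkLI (fun i => if i ∈ A then 1 else 0) 1 (fun i => by
    by_cases h : i ∈ A <;> simp [h])

open Classical in
theorem ind_apply {I : Type} (A : Set I) (i : I) : (ind 𝕜 A) i = if i ∈ A then 1 else 0 := rfl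

theorem ind_mem {I : Type} {A : Set I} {i : I} (h : i ∈ A) : (ind 𝕜 A) i = 1 := by
  rw [ind_apply, if_pos h]

theorem ind_not_mem {I : Type} {A : Set I} {i : I} (h : i ∉ A) : (ind 𝕜 A) i = 0 := by
  rw [ind_apply, if_neg h]

theorem LI_apply_le {I : Type} (f : LI 𝕜 I) (i : I) : ‖f i‖ ≤ ‖f‖ :=
  lp.norm_apply_le_norm ENNReal.top_ne_zero f i

theorem LI_norm_le {I : Type} (f : LI 𝕜 I) (c : ℝ) (hc : 0 ≤ c) (h : ∀ i, ‖f i‖ ≤ c) : ‖f‖ ≤ c :=
  lp.norm_le_of_forall_le hc h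

theorem norm_ind_le {I : Type} (A : Set I) : ‖ind 𝕜 A‖ ≤ 1 := by
  apply LI_norm_le _ _ zero_le_one
  intro i
  by_cases h : i ∈ A
  · rw [ind_mem h, norm_one]
  · rw [ind_not_mem h, norm_zero]; exact zero_le_one

/-- functions which are small outside sets smaller than `κ` -/
def EE (𝕜 : Type) [RCLike 𝕜] {κ : Cardinal.{0}} (hκ : ℵ₀ ≤ κ) (I : Type) :
    Submodule 𝕜 (LI 𝕜 I) where
  carrier := {f | ∀ ε : ℝ, 0 < ε → #{i | ε ≤ ‖f i‖} < κ}
  zero_mem' := by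
    intro ε hε
    have : {i : I | ε ≤ ‖(0 : LI 𝕜 I) i‖} = ∅ := by
      ext i
      simp only [lp.coeFn_zero, Pi.zero_apply, norm_zero, mem_empty_iff_false, iff_false]
      intro h
      exact absurd (show ε ≤ 0 from h) (not_le.2 hε)
    rw [this]
    simpa using Cardinal.aleph0_pos.trans_le hκ
  add_mem' := by
    intro f g hf hg ε hε
    have hsub : {i : I | ε ≤ ‖(f + g) i‖} ⊆ {i | ε / 2 ≤ ‖f i‖} ∪ {i | ε / 2 ≤ ‖g i‖} := by
      intro i hi
      by_contra hcon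
      have h1 : ¬ ε / 2 ≤ ‖f i‖ := fun h => hcon (Or.inl h)
      have h2 : ¬ ε / 2 ≤ ‖g i‖ := fun h => hcon (Or.inr h)
      have h3 : ‖(f + g) i‖ ≤ ‖f i‖ + ‖g i‖ := by
        rw [lp.coeFn_add, Pi.add_apply]
        exact norm_add_le _ _
      have h4 : ε ≤ ‖(f + g) i‖ := hi
      linarith
    exact (Cardinal.mk_le_mk_of_subset hsub).trans_lt ((Cardinal.mk_union_le _ _).trans_lt
      (Cardinal.add_lt_of_lt hκ (hf _ (half_pos hε)) (hg _ (half_pos hε))))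
  smul_mem' := by
    intro c f hf ε hε
    have hsub : {i : I | ε ≤ ‖(c • f) i‖} ⊆ {i | ε / (‖c‖ + 1) ≤ ‖f i‖} := by
      intro i hi
      have h1 : ε ≤ ‖(c • f) i‖ := hi
      have h2 : ‖(c • f) i‖ = ‖c‖ * ‖f i‖ := by
        rw [lp.coeFn_smul, Pi.smul_apply, smul_eq_mul, norm_mul]
      show ε / (‖c‖ + 1) ≤ ‖f i‖
      rw [div_le_iff₀ (by positivity)]
      have := norm_nonneg (f i)
      nlinarith [norm_nonneg c]
    exact (Cardinal.mk_le_mk_of_subset hsub).trans_lt (hf _ (div_pos hε (by positivity)))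

theorem mem_EE {κ : Cardinal.{0}} (hκ : ℵ₀ ≤ κ) {I : Type} (f : LI 𝕜 I) :
    f ∈ EE 𝕜 hκ I ↔ ∀ ε : ℝ, 0 < ε → #{i | ε ≤ ‖f i‖} < κ := Iff.rfl

theorem isClosed_EE {κ : Cardinal.{0}} (hκ : ℵ₀ ≤ κ) (I : Type) :
    IsClosed (EE 𝕜 hκ I : Set (LI 𝕜 I)) := by
  rw [← isSeqClosed_iff_isClosed]
  intro u f hu hf ε hε
  obtain ⟨n, hn⟩ := ((tendsto_iff_norm_sub_tendsto_zero.1 hf).eventually
    (gt_mem_nhds (half_pos hε))).exists
  refine (Cardinal.mk_le_mk_of_subset ?_).trans_lt (hu n (ε / 2) (half_pos hε))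
  intro i hi
  have h1 : ε ≤ ‖f i‖ := hi
  have h2 : ‖(u n - f) i‖ ≤ ‖u n - f‖ := LI_apply_le _ i
  rw [lp.coeFn_sub, Pi.sub_apply] at h2
  have h3 : ‖f i‖ ≤ ‖u n i‖ + ‖u n i - f i‖ := by
    have := norm_sub_le (u n i) (u n i - f i)
    simpa using this
  show ε / 2 ≤ ‖u n i‖
  linarith

/-- functions with small support -/
theorem mem_EE_of_support {κ : Cardinal.{0}} (hκ : ℵ₀ ≤ κ) {I : Type} (f : LI 𝕜 I) (S : Set I)
    (hS : #S < κ) (h : ∀ i, i ∉ S → f i = 0) : f ∈ EE 𝕜 hκ I := by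
  intro ε hε
  refine (Cardinal.mk_le_mk_of_subset ?_).trans_lt hS
  intro i hi
  by_contra hcon
  have h1 : ε ≤ ‖f i‖ := hi
  rw [h i hcon, norm_zero] at h1
  linarith

theorem ind_singleton_mem {κ : Cardinal.{0}} (hκ : ℵ₀ ≤ κ) {I : Type} (i : I) :
    ind 𝕜 ({i} : Set I) ∈ EE 𝕜 hκ I := by
  apply mem_EE_of_support hκ _ {i}
  · rw [Cardinal.mk_singleton]; exact Cardinal.one_lt_aleph0.trans_le hκ
  · intro j hj
    exact ind_not_mem hj

/-- the support of a member of `E(κ⁺)` -/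
theorem support_EE {κ : Cardinal.{0}} (hκ : ℵ₀ ≤ κ) (hκ' : ℵ₀ ≤ Order.succ κ) {I : Type}
    (f : LI 𝕜 I) (hf : f ∈ EE 𝕜 hκ' I) : #{i | f i ≠ 0} < Order.succ κ := by
  have hsub : {i | f i ≠ 0} ⊆ ⋃ n : ℕ, {i | (1 : ℝ) / (n + 1) ≤ ‖f i‖} := by
    intro i hi
    have h1 : 0 < ‖f i‖ := norm_pos_iff.2 hi
    obtain ⟨n, hn⟩ := exists_nat_one_div_lt h1
    exact mem_iUnion.2 ⟨n, hn.le⟩
  refine (Cardinal.mk_le_mk_of_subset hsub).trans_lt ?_
  rw [Cardinal.card_iUnion_lt_iff_forall_of_isRegular (Cardinal.isRegular_succ hκ)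
    (by rw [Cardinal.mk_nat]; exact Order.lt_succ_iff.2 hκ)]
  intro n
  exact hf _ (by positivity)

/-- composition with a partial map -/
noncomputable def pull (𝕜 : Type) [RCLike 𝕜] {I J : Type} (h : I → Option J) : LI 𝕜 J →L[𝕜] LI 𝕜 I :=
  LinearMap.mkContinuous
    { toFun := fun f => mkLI (fun i => (h i).elim 0 f) ‖f‖ (fun i => by
        cases h i with
        | none => simp
        | some j => exact LI_apply_le f j)
      map_add' := fun f g => by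
        ext i
        simp only [mkLI_apply, lp.coeFn_add, Pi.add_apply]
        cases h i with
        | none => simp
        | some j => simp
      map_smul' := fun c f => by
        ext i
        simp only [mkLI_apply, lp.coeFn_smul, Pi.smul_apply, RingHom.id_apply]
        cases h i with
        | none => simp
        | some j => simp } 1 (fun f => by
    rw [one_mul]
    apply LI_norm_le _ _ (norm_nonneg _)
    intro i
    simp only [LinearMap.coe_mk, AddHom.coe_mk, mkLI_apply]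
    cases h i with
    | none => simp
    | some j => exact LI_apply_le f j)

theorem pull_apply {I J : Type} (h : I → Option J) (f : LI 𝕜 J) (i : I) :
    (pull 𝕜 h f) i = (h i).elim 0 f := rfl

theorem norm_pull_le {I J : Type} (h : I → Option J) (f : LI 𝕜 J) : ‖pull 𝕜 h f‖ ≤ ‖f‖ := by
  apply LI_norm_le _ _ (norm_nonneg _)
  intro i
  rw [pull_apply]
  cases h i with
  | none => simp
  | some j => exact LI_apply_le f j

theorem pull_ind {I J : Type} (h : I → Option J) (j : J) :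
    pull 𝕜 h (ind 𝕜 ({j} : Set J)) = ind 𝕜 {i | h i = some j} := by
  ext i
  rw [pull_apply]
  cases hi : h i with
  | none =>
    rw [ind_not_mem (show i ∉ {i | h i = some j} from fun hh => by
      have : h i = some j := hh
      rw [hi] at this
      exact absurd this (by simp))]
    rfl
  | some j' =>
    by_cases hj : j' = j
    · rw [ind_mem (show i ∈ {i | h i = some j} from by rw [← hj]; exact hi)]
      exact ind_mem hj
    · rw [ind_not_mem (show i ∉ {i | h i = some j} from fun hh => by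
        have : h i = some j := hh
        rw [hi] at this
        exact hj (Option.some_injective _ this))]
      exact ind_not_mem hj

/-- separated images of indicator functions -/
theorem sep_family {κ : Cardinal.{0}} (hκ : ℵ₀ ≤ κ) {I : Type} (hI : #I = κ)
    {Z : Type} [NormedAddCommGroup Z] [NormedSpace 𝕜 Z] (T : LI 𝕜 I →L[𝕜] Z) (δ : ℝ) (hδ : 0 < δ)
    (h : ∀ i, δ ≤ ‖T (ind 𝕜 {i})‖) :
    ∃ C : Set I, #C = κ ∧ ∀ A B : Set I, A ⊆ C → B ⊆ C → (∃ i ∈ A, i ∉ B) →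
      δ / 2 ≤ ‖T (ind 𝕜 A) - T (ind 𝕜 B)‖ := by
  classical
  have h1 : ∀ i, ∃ g : StrongDual 𝕜 Z, ‖g‖ ≤ 1 ∧ g (T (ind 𝕜 {i})) = ‖T (ind 𝕜 {i})‖ :=
    fun i => exists_dual_vector'' 𝕜 _
  choose g hg1 hg2 using h1
  let m : I → LI 𝕜 I →L[𝕜] 𝕜 := fun i => (g i).comp T
  have hm : ∀ i f, m i f = g i (T f) := fun _ _ => rfl
  obtain ⟨n, hn⟩ := exists_nat_gt (‖T‖ / (δ / 4))
  have hn' : ‖T‖ ≤ n * (δ / 4) := by
    rw [div_lt_iff₀ (by positivity)] at hn
    exact hn.le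
  obtain ⟨C, -, hC, hvar⟩ := rosenthal hκ m (ε := δ / 4) (by positivity) n Set.univ
    (by rw [Cardinal.mk_univ, hI]) (by
      intro i _ f hf _
      have hfn : ‖f‖ ≤ 1 := LI_norm_le f 1 zero_le_one hf
      calc ‖m i f‖ ≤ ‖g i‖ * ‖T f‖ := (g i).le_opNorm _
        _ ≤ 1 * (‖T‖ * ‖f‖) := mul_le_mul (hg1 i) (T.le_opNorm f) (norm_nonneg _) zero_le_one
        _ ≤ 1 * (‖T‖ * 1) := by gcongr
        _ ≤ n * (δ / 4) := by rw [one_mul, mul_one]; exact hn')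
  refine ⟨C, hC, fun A B hA hB ⟨i, hiA, hiB⟩ => ?_⟩
  let r : LI 𝕜 I := ind 𝕜 A - ind 𝕜 B - ind 𝕜 {i}
  have hrv : ∀ x, r x = (ind 𝕜 A) x - (ind 𝕜 B) x - (ind 𝕜 ({i} : Set I)) x := fun x => by
    simp only [r, lp.coeFn_sub, Pi.sub_apply]
  have hr : ‖m i r‖ ≤ δ / 4 := by
    apply hvar i (hA hiA) r
    · intro x
      rw [hrv]
      by_cases hx : x = i
      · rw [hx, ind_mem hiA, ind_not_mem hiB, ind_mem (mem_singleton i)]
        simp
      · rw [ind_not_mem (show x ∉ ({i} : Set I) from hx)]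
        by_cases h1 : x ∈ A <;> by_cases h2 : x ∈ B <;>
          simp [ind_apply, h1, h2]
    · intro x hx
      rw [hrv]
      by_cases hxi : x = i
      · rw [hxi, ind_mem hiA, ind_not_mem hiB, ind_mem (mem_singleton i)]
        simp
      · have hxC : x ∉ C := fun h => hx ⟨h, hxi⟩
        rw [ind_not_mem (show x ∉ ({i} : Set I) from hxi), ind_not_mem (fun h => hxC (hA h)),
          ind_not_mem (fun h => hxC (hB h))]
        simp
  have h3 : m i (ind 𝕜 A - ind 𝕜 B) = (‖T (ind 𝕜 {i})‖ : 𝕜) + m i r := by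
    rw [← hg2 i, ← hm, ← map_add]
    congr 1
    show ind 𝕜 A - ind 𝕜 B = ind 𝕜 {i} + (ind 𝕜 A - ind 𝕜 B - ind 𝕜 {i})
    abel
  have h4 : δ - δ / 4 ≤ ‖m i (ind 𝕜 A - ind 𝕜 B)‖ := by
    rw [h3]
    have h5 := norm_sub_le ((‖T (ind 𝕜 {i})‖ : 𝕜) + m i r) (m i r)
    rw [add_sub_cancel_right, RCLike.norm_ofReal, abs_of_nonneg (norm_nonneg _)] at h5
    have := h i
    linarith
  have h6 : ‖m i (ind 𝕜 A - ind 𝕜 B)‖ ≤ ‖T (ind 𝕜 A) - T (ind 𝕜 B)‖ := by
    rw [hm, map_sub]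
    calc ‖g i (T (ind 𝕜 A) - T (ind 𝕜 B))‖ ≤ ‖g i‖ * ‖T (ind 𝕜 A) - T (ind 𝕜 B)‖ :=
          (g i).le_opNorm _
      _ ≤ 1 * ‖T (ind 𝕜 A) - T (ind 𝕜 B)‖ := by gcongr; exact hg1 i
      _ = _ := one_mul _
  linarith

end Pool.Agent.Y277.IDC
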