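import Mathlib
import Pool.Agent.Helper69.HdDefs
import Pool.Agent.Helper69.FdExt
import Pool.Agent.Y277.IDC.Sp

/-!
# One step of the resolution
-/

set_option autoImplicit false

namespace Pool.Agent.Y277.IDC

open Set Cardinal
open Pool.Agent.Helper69.Fd (IsInjectiveSpace SES)
open scoped ENNReal

theorem exists_adC (κ : Cardinal.{0}) (hκ : κ.IsRegular) {I : Type} (C : Set I) (hC : #C = κ) :
    ∃ (W : Type) (_ : LinearOrder W) (H : W → I → Option W),
      RegOrd (Order.succ κ) W ∧ (∀ β i ξ, H β i = some ξ → ξ < β ∧ i ∈ C) ∧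
      (∀ β, ∀ ξ < β, κ ≤ #{i | H β i = some ξ}) ∧
      ∀ α β, α ≤ β → #{i | ∃ ξ < α, ¬ (H α i = some ξ ↔ H β i = some ξ)} < κ := by
  classical
  obtain ⟨W, _, N, G, hW, hN, h1, h2, h3⟩ := exists_ad κ hκ
  obtain ⟨e⟩ := Cardinal.eq.1 (hN.trans hC.symm)
  let H : W → I → Option W := fun β i => if h : i ∈ C then G β (e.symm ⟨i, h⟩) else none
  have hH1 : ∀ β n, H β (e n) = G β n := by
    intro β n
    have : H β (e n) = G β (e.symm ⟨e n, (e n).2⟩) := by
      simp only [H, dif_pos (e n).2]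
    rw [this]
    congr 1
    exact e.symm_apply_apply n
  have hH2 : ∀ β i ξ, H β i = some ξ → ∃ n, (e n : I) = i := by
    intro β i ξ h
    by_cases hi : i ∈ C
    · exact ⟨e.symm ⟨i, hi⟩, by rw [e.apply_symm_apply]⟩
    · simp only [H, dif_neg hi] at h
      exact absurd h (by simp)
  have hinj : Function.Injective (fun n : N => (e n : I)) := fun a b hab =>
    e.injective (Subtype.ext hab)
  refine ⟨W, inferInstance, H, hW, ?_, ?_, ?_⟩
  · intro β i ξ h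
    obtain ⟨n, rfl⟩ := hH2 β i ξ h
    rw [hH1] at h
    exact ⟨h1 β n ξ h, (e n).2⟩
  · intro β ξ hξ
    have hsub : (fun n : N => (e n : I)) '' {n | G β n = some ξ} ⊆ {i | H β i = some ξ} := by
      rintro _ ⟨n, hn, rfl⟩
      show H β (e n) = some ξ
      rw [hH1]
      exact hn
    refine le_trans ?_ (Cardinal.mk_le_mk_of_subset hsub)
    rw [Cardinal.mk_image_eq hinj]
    exact h2 β ξ hξ
  · intro α β hαβ
    have hsub : {i | ∃ ξ < α, ¬ (H α i = some ξ ↔ H β i = some ξ)} ⊆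
        (fun n : N => (e n : I)) '' {n | ∃ ξ < α, ¬ (G α n = some ξ ↔ G β n = some ξ)} := by
      rintro i ⟨ξ, hξ, hn⟩
      have h4 : ∃ n, (e n : I) = i := by
        by_cases h5 : H α i = some ξ
        · exact hH2 α i ξ h5
        · by_cases h6 : H β i = some ξ
          · exact hH2 β i ξ h6
          · exact absurd ⟨fun h => absurd h h5, fun h => absurd h h6⟩ hn
      obtain ⟨n, rfl⟩ := h4
      rw [hH1, hH1] at hn
      exact ⟨n, ⟨ξ, hξ, hn⟩, rfl⟩
    refine (Cardinal.mk_le_mk_of_subset hsub).trans_lt ?_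
    rw [Cardinal.mk_image_eq hinj]
    exact h3 α β hαβ

variable {𝕜 : Type} [RCLike 𝕜]

/-- the almost disjoint family and the separation of the images -/
theorem sepAD {κ : Cardinal.{0}} (hκ : κ.IsRegular) {I : Type} (hI : #I = κ)
    {Z : Type} [NormedAddCommGroup Z] [NormedSpace 𝕜 Z] (T : LI 𝕜 I →L[𝕜] Z) (δ : ℝ) (hδ : 0 < δ)
    (h : ∀ i, δ ≤ ‖T (ind 𝕜 {i})‖) :
    ∃ (W : Type) (_ : LinearOrder W) (H : W → I → Option W) (b : W → W),
      RegOrd (Order.succ κ) W ∧ (∀ β i ξ, H β i = some ξ → ξ < β) ∧ (∀ ξ, ξ < b ξ) ∧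
      (∀ α β, α ≤ β → #{i | ∃ ξ < α, ¬ (H α i = some ξ ↔ H β i = some ξ)} < κ) ∧
      ∀ ξ ξ', ξ ≠ ξ' → δ / 2 ≤
        ‖T (ind 𝕜 {i | H (b ξ) i = some ξ}) - T (ind 𝕜 {i | H (b ξ') i = some ξ'})‖ := by
  obtain ⟨C, hC, hsep⟩ := sep_family hκ.aleph0_le hI T δ hδ h
  obtain ⟨W, _, H, hW, h1, h2, h3⟩ := exists_adC κ hκ C hC
  have hb : ∀ ξ : W, ∃ b, ξ < b := by
    intro ξ
    obtain ⟨b, hb⟩ := hW.bdd {ξ} (by
      rw [Cardinal.mk_singleton]
      exact Cardinal.one_lt_aleph0.trans_le hW.reg.aleph0_le)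
    exact ⟨b, hb ξ rfl⟩
  choose b hb using hb
  refine ⟨W, inferInstance, H, b, hW, fun β i ξ h => (h1 β i ξ h).1, hb, h3, ?_⟩
  intro ξ ξ' hne
  apply hsep
  · intro i hi
    exact (h1 _ _ _ hi).2
  · intro i hi
    exact (h1 _ _ _ hi).2
  · by_contra hcon
    push Not at hcon
    have hcon' : ∀ i, H (b ξ) i = some ξ → H (b ξ') i = some ξ' := fun i hi => hcon i hi
    let β := max (b ξ) (b ξ')
    have hsub : {i | H (b ξ) i = some ξ} ⊆
        {i | ∃ ζ < b ξ, ¬ (H (b ξ) i = some ζ ↔ H β i = some ζ)} ∪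
        {i | ∃ ζ < b ξ', ¬ (H (b ξ') i = some ζ ↔ H β i = some ζ)} := by
      intro i hi
      by_contra hi'
      have hA : H β i = some ξ := by
        by_contra h5
        exact hi' (Or.inl ⟨ξ, hb ξ, fun h6 => h5 (h6.1 hi)⟩)
      have hB : H β i = some ξ' := by
        by_contra h5
        exact hi' (Or.inr ⟨ξ', hb ξ', fun h6 => h5 (h6.1 (hcon' i hi))⟩)
      rw [hA] at hB
      exact hne (Option.some_injective _ hB)
    have h4 := (Cardinal.mk_le_mk_of_subset hsub).trans_lt ((Cardinal.mk_union_le _ _).trans_lt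
      (Cardinal.add_lt_of_lt hκ.aleph0_le (h3 _ β (le_max_left _ _)) (h3 _ β (le_max_right _ _))))
    exact absurd (h2 (b ξ) ξ (hb ξ)) (not_le.2 h4)

/-- a bounded operator on `E_κ(I)`, `|I| = κ`, which is bounded below on the unit vectors -/
def PP (𝕜 : Type) [RCLike 𝕜] {κ : Cardinal.{0}} (hκ : ℵ₀ ≤ κ) (Q : Type) [NormedAddCommGroup Q]
    [NormedSpace 𝕜 Q] : Prop :=
  ∃ (I : Type) (J : EE 𝕜 hκ I →L[𝕜] Q) (δ : ℝ), #I = κ ∧ 0 < δ ∧
    ∀ i, δ ≤ ‖J ⟨ind 𝕜 {i}, ind_singleton_mem hκ i⟩‖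

/-- separated families are not larger than dense sets -/
theorem sep_card {Q A : Type} [NormedAddCommGroup Q] {κ : Cardinal.{0}} (D : Set Q) (hD : Dense D)
    (hDc : #D ≤ κ) (z : A → Q) (δ : ℝ) (hδ : 0 < δ) (hz : ∀ a b, a ≠ b → δ ≤ ‖z a - z b‖) :
    #A ≤ κ := by
  have h1 : ∀ a, ∃ d ∈ D, ‖z a - d‖ < δ / 2 := by
    intro a
    obtain ⟨d, hd, h2⟩ := hD.exists_dist_lt (z a) (half_pos hδ)
    exact ⟨d, hd, by rwa [← dist_eq_norm]⟩
  choose d hd h2 using h1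
  have hinj : Function.Injective (fun a => (⟨d a, hd a⟩ : D)) := by
    intro a b hab
    by_contra hne
    have h3 : d a = d b := congrArg Subtype.val hab
    have h4 : ‖z a - z b‖ ≤ ‖z a - d a‖ + ‖z b - d b‖ := by
      have : z a - z b = (z a - d a) - (z b - d b) := by rw [h3]; abel
      rw [this]
      exact norm_sub_le _ _
    have := hz a b hne
    have := h2 a
    have := h2 b
    linarith
  exact (Cardinal.mk_le_of_injective hinj).trans hDc

/-- **Theorem A.** -/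
theorem not_injective {κ : Cardinal.{0}} (hκ : κ.IsRegular) (Q : Type) [NormedAddCommGroup Q]
    [NormedSpace 𝕜 Q] (hP : PP 𝕜 hκ.aleph0_le Q) (D : Set Q) (hD : Dense D) (hDc : #D ≤ κ) :
    ¬ IsInjectiveSpace 𝕜 Q := by
  intro hinj
  obtain ⟨I, J, δ, hI, hδ, hJ⟩ := hP
  obtain ⟨T, hT⟩ := hinj (LI 𝕜 I) (EE 𝕜 hκ.aleph0_le I) (isClosed_EE _ I) J
  obtain ⟨W, _, H, b, hW, -, -, -, hsep⟩ := sepAD hκ hI T δ hδ (fun i => by
    have := hJ i
    rw [← hT] at this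
    exact this)
  have h1 := sep_card (κ := κ) D hD hDc (fun ξ : W => T (ind 𝕜 {i | H (b ξ) i = some ξ})) (δ / 2)
    (half_pos hδ) hsep
  rw [hW.card] at h1
  exact absurd h1 (not_le.2 (Order.lt_succ κ))

end Pool.Agent.Y277.IDC
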