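import Mathlib
import Pool.Agent.Y277.IDC.Step

/-!
# From one cosyzygy to the next
-/

set_option autoImplicit false

namespace Pool.Agent.Y277.IDC

open Set Cardinal
open Pool.Agent.Helper69.Fd (IsInjectiveSpace SES)
open scoped ENNReal

variable {𝕜 : Type} [RCLike 𝕜]

theorem exists_TB {κ : Cardinal.{0}} (hκ : ℵ₀ ≤ κ) (hκ' : ℵ₀ ≤ Order.succ κ) {I W : Type}
    [LinearOrder W] (hW : RegOrd (Order.succ κ) W) (H : W → I → Option W)
    (hH : ∀ β i ξ, H β i = some ξ → ξ < β)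
    (hco : ∀ α β, α ≤ β → #{i | ∃ ξ < α, ¬ (H α i = some ξ ↔ H β i = some ξ)} < κ)
    {Q' : Type} [NormedAddCommGroup Q'] [NormedSpace 𝕜 Q'] (S : LI 𝕜 I →L[𝕜] Q')
    (hS : ∀ f ∈ EE 𝕜 hκ I, S f = 0) :
    ∃ T : EE 𝕜 hκ' W →L[𝕜] Q', ∀ (f : EE 𝕜 hκ' W) (β : W), (∀ ξ, (f : LI 𝕜 W) ξ ≠ 0 → ξ < β) →
      T f = S (pull 𝕜 (H β) f) := by
  classical
  have hsupp : ∀ f : EE 𝕜 hκ' W, ∃ β : W, ∀ ξ, (f : LI 𝕜 W) ξ ≠ 0 → ξ < β := by
    intro f
    obtain ⟨β, hβ⟩ := hW.bdd _ (support_EE hκ hκ' (f : LI 𝕜 W) f.2)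
    exact ⟨β, fun ξ hξ => hβ ξ hξ⟩
  have hle : ∀ (f : LI 𝕜 W) (α β : W), α ≤ β → (∀ ξ, f ξ ≠ 0 → ξ < α) →
      S (pull 𝕜 (H α) f) = S (pull 𝕜 (H β) f) := by
    intro f α β hαβ hf
    rw [← sub_eq_zero, ← map_sub]
    apply hS
    apply mem_EE_of_support hκ _ _ (hco α β hαβ)
    intro i hi
    rw [lp.coeFn_sub, Pi.sub_apply, pull_apply, pull_apply, sub_eq_zero]
    by_contra hne
    apply hi
    have hor : (∃ ξ, H α i = some ξ ∧ f ξ ≠ 0 ∧ H β i ≠ some ξ) ∨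
        (∃ ξ, H β i = some ξ ∧ f ξ ≠ 0 ∧ H α i ≠ some ξ) := by
      by_contra hcon
      push Not at hcon
      obtain ⟨hc1, hc2⟩ := hcon
      apply hne
      cases hA : H α i with
      | none =>
        cases hB : H β i with
        | none => rfl
        | some ξ' =>
          by_cases hf' : f ξ' = 0
          · simp [hf']
          · have := hc2 ξ' hB hf'
            rw [hA] at this
            exact absurd this (by simp)
      | some ξ =>
        cases hB : H β i with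
        | none =>
          by_cases hf' : f ξ = 0
          · simp [hf']
          · have := hc1 ξ hA hf'
            rw [hB] at this
            exact absurd this (by simp)
        | some ξ' =>
          by_cases hf1 : f ξ = 0
          · by_cases hf2 : f ξ' = 0
            · simp [hf1, hf2]
            · have := hc2 ξ' hB hf2
              rw [hA] at this
              rw [Option.some_injective _ this]
          · have := hc1 ξ hA hf1
            rw [hB] at this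
            rw [Option.some_injective _ this]
    rcases hor with ⟨ξ, h1, h2, h3⟩ | ⟨ξ, h1, h2, h3⟩
    · exact ⟨ξ, hf ξ h2, fun h => h3 (h.1 h1)⟩
    · exact ⟨ξ, hf ξ h2, fun h => h3 (h.2 h1)⟩
  have hindep : ∀ (f : LI 𝕜 W) (α β : W), (∀ ξ, f ξ ≠ 0 → ξ < α) → (∀ ξ, f ξ ≠ 0 → ξ < β) →
      S (pull 𝕜 (H α) f) = S (pull 𝕜 (H β) f) := by
    intro f α β h1 h2
    rcases le_total α β with h | h
    · exact hle f α β h h1
    · exact (hle f β α h h2).symm
  choose b hb using hsupp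
  let T₀ : EE 𝕜 hκ' W →ₗ[𝕜] Q' :=
    { toFun := fun f => S (pull 𝕜 (H (b f)) f)
      map_add' := by
        intro f g
        let β := max (b f) (max (b g) (b (f + g)))
        have e1 := hindep f (b f) β (hb f) (fun ξ h => (hb f ξ h).trans_le (le_max_left _ _))
        have e2 := hindep g (b g) β (hb g) (fun ξ h => (hb g ξ h).trans_le
          ((le_max_left _ _).trans (le_max_right _ _)))
        have e3 := hindep (f + g : EE 𝕜 hκ' W) (b (f + g)) β (hb (f + g))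
          (fun ξ h => (hb (f + g) ξ h).trans_le ((le_max_right _ _).trans (le_max_right _ _)))
        rw [e1, e2, e3, Submodule.coe_add, map_add, map_add]
      map_smul' := by
        intro c f
        let β := max (b f) (b (c • f))
        have e1 := hindep f (b f) β (hb f) (fun ξ h => (hb f ξ h).trans_le (le_max_left _ _))
        have e3 := hindep (c • f : EE 𝕜 hκ' W) (b (c • f)) β (hb (c • f))
          (fun ξ h => (hb (c • f) ξ h).trans_le (le_max_right _ _))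
        rw [e1, e3, Submodule.coe_smul, map_smul, map_smul, RingHom.id_apply] }
  refine ⟨T₀.mkContinuous ‖S‖ (fun f => ?_), fun f β hβ => ?_⟩
  · show ‖S (pull 𝕜 (H (b f)) f)‖ ≤ ‖S‖ * ‖f‖
    exact (S.le_opNorm _).trans (mul_le_mul_of_nonneg_left (norm_pull_le _ _) (norm_nonneg _))
  · exact hindep f (b f) β (hb f) hβ

/-- **Theorem B.** -/
theorem stepB {κ : Cardinal.{0}} (hκ : κ.IsRegular) (hκ' : ℵ₀ ≤ Order.succ κ)
    {Q Z Q' : Type} [NormedAddCommGroup Q] [NormedSpace 𝕜 Q] [CompleteSpace Q]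
    [NormedAddCommGroup Z] [NormedSpace 𝕜 Z] [CompleteSpace Z]
    [NormedAddCommGroup Q'] [NormedSpace 𝕜 Q'] [CompleteSpace Q']
    (j : Q →L[𝕜] Z) (π : Z →L[𝕜] Q') (hs : SES j π) (hZ : IsInjectiveSpace 𝕜 Z)
    (hP : PP 𝕜 hκ.aleph0_le Q) (D : Set Q) (hD : Dense D) (hDc : #D ≤ κ) :
    PP 𝕜 hκ' Q' := by
  classical
  obtain ⟨I, J, δ, hI, hδ, hJ⟩ := hP
  obtain ⟨T, hT⟩ := hZ (LI 𝕜 I) (EE 𝕜 hκ.aleph0_le I) (isClosed_EE _ I) (j.comp J)
  obtain ⟨c, hc⟩ := hs.bddBelow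
  have hc1 : 0 < |c| + 1 := by positivity
  have hδ1 : 0 < δ / (|c| + 1) := div_pos hδ hc1
  obtain ⟨W, _, H, b, hW, hH, hb, hco, hsep⟩ := sepAD hκ hI T (δ / (|c| + 1)) hδ1 (fun i => by
    have h1 := hT ⟨ind 𝕜 {i}, ind_singleton_mem hκ.aleph0_le i⟩
    have h2 : T (ind 𝕜 {i}) = j (J ⟨ind 𝕜 {i}, ind_singleton_mem hκ.aleph0_le i⟩) := h1
    rw [h2, div_le_iff₀ hc1]
    have h3 := hc (J ⟨ind 𝕜 {i}, ind_singleton_mem hκ.aleph0_le i⟩)
    have h4 := hJ i
    have h5 : c ≤ |c| + 1 := (le_abs_self c).trans (by linarith)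
    nlinarith [norm_nonneg (j (J ⟨ind 𝕜 {i}, ind_singleton_mem hκ.aleph0_le i⟩))])
  set η := δ / (|c| + 1) / 2 with hη
  have hη0 : 0 < η := half_pos hδ1
  obtain ⟨TB, hTB⟩ := exists_TB hκ.aleph0_le hκ' hW H hH hco (π.comp T) (by
    intro f hf
    have h1 : T f = j (J ⟨f, hf⟩) := hT ⟨f, hf⟩
    show π (T f) = 0
    rw [h1]
    exact (hs.ex _).2 ⟨_, rfl⟩)
  let z : W → Z := fun ξ => T (ind 𝕜 {i | H (b ξ) i = some ξ})
  have hz : ∀ ξ, TB ⟨ind 𝕜 {ξ}, ind_singleton_mem hκ' ξ⟩ = π (z ξ) := by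
    intro ξ
    have h1 := hTB ⟨ind 𝕜 {ξ}, ind_singleton_mem hκ' ξ⟩ (b ξ) (by
      intro ζ hζ
      by_cases h : ζ = ξ
      · rw [h]; exact hb ξ
      · exact absurd (ind_not_mem (𝕜 := 𝕜) (show ζ ∉ ({ξ} : Set W) from h)) hζ)
    rw [h1]
    show π (T (pull 𝕜 (H (b ξ)) (ind 𝕜 {ξ}))) = π (T (ind 𝕜 {i | H (b ξ) i = some ξ}))
    rw [pull_ind]
  -- the open mapping constant
  obtain ⟨K, hK, hpre⟩ := ContinuousLinearMap.exists_preimage_norm_le π hs.surj
  let θ : ℝ := η / (8 * K)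
  have hθ : 0 < θ := div_pos hη0 (by positivity)
  let Bad : Set W := {ξ | ‖π (z ξ)‖ < θ}
  have hBad : #Bad ≤ κ := by
    have h1 : ∀ ξ : Bad, ∃ q : Q, ‖z ξ - j q‖ ≤ η / 8 := by
      rintro ⟨ξ, hξ⟩
      obtain ⟨w, hw1, hw2⟩ := hpre (π (z ξ))
      have h2 : π (z ξ - w) = 0 := by rw [map_sub, hw1, sub_self]
      obtain ⟨q, hq⟩ := (hs.ex _).1 h2
      refine ⟨q, ?_⟩
      rw [hq, sub_sub_cancel]
      refine hw2.trans ?_
      have h3 : ‖π (z ξ)‖ ≤ θ := le_of_lt hξ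
      calc K * ‖π (z ξ)‖ ≤ K * θ := mul_le_mul_of_nonneg_left h3 hK.le
        _ = η / 8 := by
          show K * (η / (8 * K)) = η / 8
          field_simp
    choose q hq using h1
    -- the points q are separated
    have hsepq : ∀ ξ ξ' : Bad, ξ ≠ ξ' → η / 4 / (‖j‖ + 1) ≤ ‖q ξ - q ξ'‖ := by
      intro ξ ξ' hne
      have h2 : η ≤ ‖z ξ - z ξ'‖ := hsep ξ ξ' (fun h => hne (Subtype.ext h))
      have h3 : z ξ - z ξ' = (z ξ - j (q ξ)) - (z ξ' - j (q ξ')) + j (q ξ - q ξ') := by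
        rw [map_sub]; abel
      have h4 : ‖z ξ - z ξ'‖ ≤ ‖z ξ - j (q ξ)‖ + ‖z ξ' - j (q ξ')‖ + ‖j (q ξ - q ξ')‖ := by
        rw [h3]
        exact (norm_add_le _ _).trans (add_le_add (norm_sub_le _ _) le_rfl)
      have h5 := j.le_opNorm (q ξ - q ξ')
      have h6 := hq ξ
      have h7 := hq ξ'
      rw [div_le_iff₀ (by positivity)]
      nlinarith [norm_nonneg (q ξ - q ξ'), norm_nonneg j]
    exact sep_card D hD hDc q _ (by positivity) hsepq
  have hWinf : Infinite W := by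
    rw [Cardinal.infinite_iff, hW.card]
    exact hκ'
  have hcard : #(Badᶜ : Set W) = Order.succ κ := by
    rw [Cardinal.mk_compl_of_infinite Bad (by
      rw [hW.card]
      exact hBad.trans_lt (Order.lt_succ κ)), hW.card]
  let h : W → Option (Badᶜ : Set W) := fun ξ => if hξ : ξ ∈ Badᶜ then some ⟨ξ, hξ⟩ else none
  have hh : ∀ ξ (x : (Badᶜ : Set W)), h ξ = some x ↔ ξ = x := by
    intro ξ x
    by_cases hξ : ξ ∈ Badᶜ
    · simp only [h, dif_pos hξ, Option.some_inj]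
      constructor
      · intro h1
        exact congrArg Subtype.val h1
      · intro h1
        exact Subtype.ext h1
    · simp only [h, dif_neg hξ]
      constructor
      · intro h1
        exact absurd h1 (by simp)
      · intro h1
        exact absurd (h1 ▸ x.2) hξ
  have hmem : ∀ f : EE 𝕜 hκ' (Badᶜ : Set W), pull 𝕜 h (f : LI 𝕜 (Badᶜ : Set W)) ∈ EE 𝕜 hκ' W := by
    intro f ε hε
    have hsub : {ξ | ε ≤ ‖(pull 𝕜 h (f : LI 𝕜 (Badᶜ : Set W))) ξ‖} ⊆
        (fun x : (Badᶜ : Set W) => (x : W)) '' {x | ε ≤ ‖(f : LI 𝕜 (Badᶜ : Set W)) x‖} := by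
      intro ξ hξ
      have h1 : ε ≤ ‖(pull 𝕜 h (f : LI 𝕜 (Badᶜ : Set W))) ξ‖ := hξ
      rw [pull_apply] at h1
      cases h2 : h ξ with
      | none =>
        rw [h2] at h1
        simp only [Option.elim_none, norm_zero] at h1
        linarith
      | some x =>
        rw [h2] at h1
        exact ⟨x, h1, ((hh ξ x).1 h2).symm⟩
    exact ((Cardinal.mk_le_mk_of_subset hsub).trans Cardinal.mk_image_le).trans_lt (f.2 ε hε)
  let J' : EE 𝕜 hκ' (Badᶜ : Set W) →L[𝕜] Q' := TB.comp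
    (((pull 𝕜 h).comp (EE 𝕜 hκ' (Badᶜ : Set W)).subtypeL).codRestrict (EE 𝕜 hκ' W)
      (fun f => hmem f))
  refine ⟨(Badᶜ : Set W), J', θ, hcard, hθ, ?_⟩
  intro x
  have h1 : J' ⟨ind 𝕜 {x}, ind_singleton_mem hκ' x⟩ = π (z x) := by
    rw [← hz]
    show TB _ = TB _
    congr 1
    apply Subtype.ext
    show pull 𝕜 h (ind 𝕜 {x}) = ind 𝕜 {(x : W)}
    rw [pull_ind]
    congr 1
    ext ξ
    exact hh ξ x
  rw [h1]
  exact not_lt.1 (fun h2 => x.2 h2)

end Pool.Agent.Y277.IDC
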