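import Mathlib
import Pool.Agent.Y277.IDC.StepB

/-!
# `ℓ_∞(Γ)`: injectivity, embeddings, cardinality; the space `c₀`
-/

set_option autoImplicit false

namespace Pool.Agent.Y277.IDC

open Set Cardinal Filter Topology
open Pool.Agent.Helper69.Fd (IsInjectiveSpace SES)
open scoped ENNReal ZeroAtInfty

variable {𝕜 : Type} [RCLike 𝕜]

theorem extend_LI (Γ : Type) {E : Type} [NormedAddCommGroup E] [NormedSpace 𝕜 E]
    (F : Submodule 𝕜 E) (T : F →L[𝕜] LI 𝕜 Γ) : ∃ T' : E →L[𝕜] LI 𝕜 Γ, ∀ x : F, T' x = T x := by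
  have h0 : ∀ (γ : Γ) (x : F), ‖(T x) γ‖ ≤ ‖T‖ * ‖x‖ := fun γ x =>
    (LI_apply_le (T x) γ).trans (T.le_opNorm x)
  let t : Γ → StrongDual 𝕜 F := fun γ => LinearMap.mkContinuous
    { toFun := fun x => (T x) γ
      map_add' := fun x y => by rw [map_add, lp.coeFn_add, Pi.add_apply]
      map_smul' := fun c x => by
        rw [map_smul, lp.coeFn_smul, Pi.smul_apply, RingHom.id_apply] } ‖T‖ (h0 γ)
  have ht : ∀ γ, ‖t γ‖ ≤ ‖T‖ := fun γ => LinearMap.mkContinuous_norm_le _ (norm_nonneg _) _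
  have h1 : ∀ γ, ∃ g : StrongDual 𝕜 E, (∀ x : F, g x = t γ x) ∧ ‖g‖ = ‖t γ‖ :=
    fun γ => exists_extension_norm_eq F (t γ)
  choose g hg1 hg2 using h1
  have hb : ∀ (x : E) (γ : Γ), ‖g γ x‖ ≤ ‖T‖ * ‖x‖ := fun x γ =>
    ((g γ).le_opNorm x).trans (mul_le_mul_of_nonneg_right ((hg2 γ).le.trans (ht γ)) (norm_nonneg _))
  refine ⟨LinearMap.mkContinuous
    { toFun := fun x => mkLI (fun γ => g γ x) (‖T‖ * ‖x‖) (hb x)
      map_add' := fun x y => by
        ext γ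
        simp only [mkLI_apply, lp.coeFn_add, Pi.add_apply, map_add]
      map_smul' := fun c x => by
        ext γ
        simp only [mkLI_apply, lp.coeFn_smul, Pi.smul_apply, map_smul, RingHom.id_apply] } ‖T‖
    (fun x => LI_norm_le _ _ (by positivity) (hb x)), fun x => ?_⟩
  ext γ
  show g γ x = (T x) γ
  rw [hg1]
  rfl

theorem isInjectiveSpace_LI (Γ : Type) : IsInjectiveSpace 𝕜 (LI 𝕜 Γ) := by
  intro E _ _ _ F _ T
  exact extend_LI Γ F T

/-- isometric embedding into `ℓ_∞` of a dense set -/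
theorem exists_embed (Q : Type) [NormedAddCommGroup Q] [NormedSpace 𝕜 Q] (D : Set Q)
    (hD : Dense D) : ∃ j : Q →L[𝕜] LI 𝕜 D, ∀ x, ‖j x‖ = ‖x‖ := by
  have h1 : ∀ d : D, ∃ g : StrongDual 𝕜 Q, ‖g‖ ≤ 1 ∧ g d = ‖(d : Q)‖ :=
    fun d => exists_dual_vector'' 𝕜 _
  choose g hg1 hg2 using h1
  have hb : ∀ (x : Q) (d : D), ‖g d x‖ ≤ ‖x‖ := fun x d => by
    have := ((g d).le_opNorm x).trans (mul_le_mul_of_nonneg_right (hg1 d) (norm_nonneg _))
    rwa [one_mul] at this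
  let j : Q →L[𝕜] LI 𝕜 D := LinearMap.mkContinuous
    { toFun := fun x => mkLI (fun d => g d x) ‖x‖ (hb x)
      map_add' := fun x y => by
        ext d
        simp only [mkLI_apply, lp.coeFn_add, Pi.add_apply, map_add]
      map_smul' := fun c x => by
        ext d
        simp only [mkLI_apply, lp.coeFn_smul, Pi.smul_apply, map_smul, RingHom.id_apply] } 1
    (fun x => by rw [one_mul]; exact LI_norm_le _ _ (norm_nonneg _) (hb x))
  have hj : ∀ x d, (j x) d = g d x := fun _ _ => rfl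
  refine ⟨j, fun x => le_antisymm (LI_norm_le _ _ (norm_nonneg _) (hb x)) ?_⟩
  apply le_of_forall_pos_le_add
  intro ε hε
  obtain ⟨d, hd, h2⟩ := hD.exists_dist_lt x (half_pos hε)
  rw [dist_eq_norm] at h2
  have h3 : g ⟨d, hd⟩ x = (‖d‖ : 𝕜) + g ⟨d, hd⟩ (x - d) := by
    rw [← hg2 ⟨d, hd⟩, ← map_add, add_sub_cancel]
  have h4 : ‖d‖ ≤ ‖g ⟨d, hd⟩ x‖ + ‖g ⟨d, hd⟩ (x - d)‖ := by
    have h5 := norm_sub_le (g ⟨d, hd⟩ x) (g ⟨d, hd⟩ (x - d))
    rw [h3, add_sub_cancel_right, RCLike.norm_ofReal, abs_of_nonneg (norm_nonneg _), ← h3] at h5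
    exact h5
  have h6 : ‖g ⟨d, hd⟩ (x - d)‖ ≤ ‖x - d‖ := hb _ _
  have h7 : ‖g ⟨d, hd⟩ x‖ ≤ ‖j x‖ := by
    rw [← hj]
    exact LI_apply_le _ _
  have h8 : ‖x‖ ≤ ‖d‖ + ‖x - d‖ := by
    have := norm_add_le d (x - d)
    rwa [add_sub_cancel] at this
  linarith

theorem mk_LI_le (Γ : Type) {κ : Cardinal.{0}} (hκ : ℵ₀ ≤ κ) (h : #Γ ≤ κ) :
    #(LI 𝕜 Γ) ≤ 2 ^ κ := by
  have h1 : Function.Injective (fun (f : LI 𝕜 Γ) (γ : Γ) => f γ) := fun f g hfg =>
    lp.ext hfg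
  have h𝕜 : #𝕜 ≤ 𝔠 := by
    have h2 : Function.Injective (fun z : 𝕜 => (RCLike.re z, RCLike.im z)) := fun z w hzw =>
      RCLike.ext (congrArg Prod.fst hzw) (congrArg Prod.snd hzw)
    refine (Cardinal.mk_le_of_injective h2).trans ?_
    rw [Cardinal.mk_prod]
    simp only [Cardinal.lift_id, Cardinal.mk_real]
    exact (Cardinal.continuum_mul_self).le
  calc #(LI 𝕜 Γ) ≤ #(Γ → 𝕜) := Cardinal.mk_le_of_injective h1
    _ = #𝕜 ^ #Γ := by simp
    _ ≤ 𝔠 ^ #Γ := Cardinal.power_le_power_right h𝕜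
    _ ≤ 𝔠 ^ κ := Cardinal.power_le_power_left (by simp [Cardinal.continuum_ne_zero]) h
    _ = 2 ^ κ := by
      rw [← Cardinal.two_power_aleph0, ← Cardinal.power_mul, Cardinal.aleph0_mul_eq hκ]

/-- the stage zero -/
theorem PP_c0 : PP 𝕜 (le_refl ℵ₀) C₀(ℕ, 𝕜) := by
  have hten : ∀ f : EE 𝕜 (le_refl ℵ₀) ℕ, Tendsto (fun n => (f : LI 𝕜 ℕ) n) (cocompact ℕ) (𝓝 0) := by
    intro f
    rw [cocompact_eq_cofinite, Metric.tendsto_nhds]
    intro ε hε
    have h1 := f.2 ε hε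
    rw [Cardinal.lt_aleph0_iff_set_finite] at h1
    have h2 := h1.eventually_cofinite_notMem
    filter_upwards [h2] with n hn
    rw [dist_zero_right]
    exact not_le.1 hn
  let J₀ : EE 𝕜 (le_refl ℵ₀) ℕ →ₗ[𝕜] C₀(ℕ, 𝕜) :=
    { toFun := fun f => ⟨⟨fun n => (f : LI 𝕜 ℕ) n, continuous_of_discreteTopology⟩, hten f⟩
      map_add' := fun f g => by
        ext n
        show ((f + g : EE 𝕜 (le_refl ℵ₀) ℕ) : LI 𝕜 ℕ) n = (f : LI 𝕜 ℕ) n + (g : LI 𝕜 ℕ) n
        rw [Submodule.coe_add, lp.coeFn_add, Pi.add_apply]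
      map_smul' := fun c f => by
        ext n
        show ((c • f : EE 𝕜 (le_refl ℵ₀) ℕ) : LI 𝕜 ℕ) n = c • ((f : LI 𝕜 ℕ) n)
        rw [Submodule.coe_smul, lp.coeFn_smul, Pi.smul_apply] }
  have hJ₀ : ∀ f n, J₀ f n = (f : LI 𝕜 ℕ) n := fun _ _ => rfl
  have hnorm : ∀ f, ‖J₀ f‖ ≤ 1 * ‖f‖ := by
    intro f
    rw [one_mul, ← ZeroAtInftyContinuousMap.norm_toBCF_eq_norm,
      BoundedContinuousFunction.norm_le (norm_nonneg _)]
    intro n
    exact LI_apply_le (f : LI 𝕜 ℕ) n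
  refine ⟨ℕ, J₀.mkContinuous 1 hnorm, 1, Cardinal.mk_nat, one_pos, ?_⟩
  intro i
  show 1 ≤ ‖J₀ ⟨ind 𝕜 {i}, ind_singleton_mem (le_refl ℵ₀) i⟩‖
  rw [← ZeroAtInftyContinuousMap.norm_toBCF_eq_norm]
  refine le_trans ?_ (BoundedContinuousFunction.norm_coe_le_norm _ i)
  have h1 : (J₀ ⟨ind 𝕜 {i}, ind_singleton_mem (le_refl ℵ₀) i⟩).toBCF i =
      (ind 𝕜 ({i} : Set ℕ)) i := rfl
  rw [h1, ind_mem (mem_singleton i), norm_one]

/-- `c₀` is separable -/
theorem dense_c0 : ∃ D : Set C₀(ℕ, 𝕜), Dense D ∧ #D ≤ ℵ₀ := by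
  classical
  let e : ℕ → C₀(ℕ, 𝕜) := fun k =>
    ⟨⟨fun n => if n = k then 1 else 0, continuous_of_discreteTopology⟩, by
      show Tendsto (fun n => if n = k then (1 : 𝕜) else 0) (cocompact ℕ) (𝓝 0)
      rw [cocompact_eq_cofinite]
      apply tendsto_const_nhds.congr'
      have : ∀ᶠ x in cofinite, x ∉ ({k} : Set ℕ) := (Set.finite_singleton k).eventually_cofinite_notMem
      filter_upwards [this] with x hx
      have : x ≠ k := hx
      simp [this]⟩
  have he : ∀ k n, e k n = if n = k then 1 else 0 := fun _ _ => rfl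
  have hsep : TopologicalSpace.IsSeparable (Submodule.span 𝕜 (range e) : Set C₀(ℕ, 𝕜)) :=
    TopologicalSpace.IsSeparable.span (countable_range e).isSeparable
  have hdense : Dense (Submodule.span 𝕜 (range e) : Set C₀(ℕ, 𝕜)) := by
    rw [Metric.dense_iff]
    intro f ε hε
    have hten : Tendsto f (cocompact ℕ) (𝓝 0) := f.zero_at_infty'
    rw [cocompact_eq_cofinite, Metric.tendsto_nhds] at hten
    have h1 := hten (ε / 2) (half_pos hε)
    rw [Filter.eventually_cofinite] at h1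
    let F : Finset ℕ := h1.toFinset
    refine ⟨∑ k ∈ F, f k • e k, ?_, Submodule.sum_mem _ (fun k _ =>
      Submodule.smul_mem _ _ (Submodule.subset_span ⟨k, rfl⟩))⟩
    rw [Metric.mem_ball, dist_comm, dist_eq_norm]
    refine lt_of_le_of_lt ?_ (half_lt_self hε)
    rw [← ZeroAtInftyContinuousMap.norm_toBCF_eq_norm,
      BoundedContinuousFunction.norm_le (half_pos hε).le]
    intro n
    have hsum : (∑ k ∈ F, f k • e k) n = if n ∈ F then f n else 0 := by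
      have h2 : (∑ k ∈ F, f k • e k) n = ∑ k ∈ F, f k • e k n := by
        induction F using Finset.induction_on with
        | empty => simp
        | insert a s ha ih =>
          rw [Finset.sum_insert ha, Finset.sum_insert ha, ZeroAtInftyContinuousMap.add_apply, ih]
          rfl
      rw [h2]
      simp [he]
    show ‖f n - (∑ k ∈ F, f k • e k) n‖ ≤ ε / 2
    rw [hsum]
    by_cases hn : n ∈ F
    · rw [if_pos hn, sub_self, norm_zero]
      exact (half_pos hε).le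
    · rw [if_neg hn, sub_zero]
      by_contra hcon
      apply hn
      rw [Set.Finite.mem_toFinset]
      intro h3
      rw [dist_zero_right] at h3
      exact hcon h3.le
  obtain ⟨D, hDc, hD⟩ := hsep
  have hD2 : Dense D := by
    rw [dense_iff_closure_eq, eq_univ_iff_forall]
    intro x
    have h1 : closure (Submodule.span 𝕜 (range e) : Set C₀(ℕ, 𝕜)) ⊆ closure D :=
      closure_minimal hD isClosed_closure
    exact h1 (hdense x)
  exact ⟨D, hD2, (Cardinal.le_aleph0_iff_set_countable).2 hDc⟩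

end Pool.Agent.Y277.IDC
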