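import Mathlib
import Pool.Agent.Y277.IDC.Linf

/-!
# The cosyzygy after the last one is not injective either
-/

set_option autoImplicit false

namespace Pool.Agent.Y277.IDC

open Set Cardinal Filter Topology
open Pool.Agent.Helper69.Fd (IsInjectiveSpace SES)
open scoped ENNReal

/-- `2^κ` almost disjoint subsets of a set of size `κ` -/
theorem exists_adtree {κ : Cardinal.{0}} (hκ : κ.IsRegular) (hpow : ∀ μ < κ, (2 : Cardinal) ^ μ ≤ κ)
    {I : Type} (C : Set I) (hC : #C = κ) :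
    ∃ (Λ : Type) (A : Λ → Set I), #Λ = 2 ^ κ ∧ (∀ a, A a ⊆ C) ∧ (∀ a, κ ≤ #(A a)) ∧
      ∀ a b, a ≠ b → #(A a ∩ A b : Set I) < κ := by
  classical
  have hinf := hκ.aleph0_le
  obtain ⟨V, _, hV⟩ := exists_regOrd κ hκ
  have := hV.wf
  let N : Type := Σ v : V, Set (Iio v)
  have hN : #N ≤ κ := by
    rw [Cardinal.mk_sigma]
    refine (Cardinal.sum_le_sum _ (fun _ => κ) (fun v => ?_)).trans ?_
    · rw [Cardinal.mk_set]
      exact hpow _ (hV.small v)
    · rw [Cardinal.sum_const', hV.card]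
      exact (Cardinal.mul_eq_self hinf).le
  obtain ⟨e⟩ := Cardinal.le_def _ _ |>.1 (hN.trans hC.symm.le)
  let tr : (B : Set V) → (v : V) → Set (Iio v) := fun B v => {x : Iio v | (x : V) ∈ B}
  let br : Set V → V → N := fun B v => ⟨v, tr B v⟩
  have hbr : ∀ B B' v v', br B v = br B' v' → v = v' := fun B B' v v' h => congrArg Sigma.fst h
  have hinj : Function.Injective (fun n : N => (e n : I)) := fun a b hab =>
    e.injective (Subtype.ext hab)
  refine ⟨Set V, fun B => range (fun v => (e (br B v) : I)), ?_, ?_, ?_, ?_⟩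
  · rw [Cardinal.mk_set, hV.card]
  · rintro B _ ⟨v, rfl⟩
    exact (e (br B v)).2
  · intro B
    rw [Cardinal.mk_range_eq _ (fun v v' h => hbr B B v v' (hinj h)), hV.card]
  · intro B B' hne
    have hex : ∃ v, ¬ (v ∈ B ↔ v ∈ B') := by
      by_contra hcon
      push Not at hcon
      exact hne (Set.ext hcon)
    obtain ⟨v₀, hv₀⟩ := hex
    have hsub : (range (fun v => (e (br B v) : I)) ∩ range (fun v => (e (br B' v) : I)) : Set I) ⊆
        (fun v => (e (br B v) : I)) '' (Iic v₀) := by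
      rintro _ ⟨⟨v, rfl⟩, ⟨v', hv'⟩⟩
      refine ⟨v, ?_, rfl⟩
      have h1 : br B' v' = br B v := hinj hv'
      have h2 : v' = v := hbr _ _ _ _ h1
      subst h2
      by_contra hcon
      have hlt : v₀ < v' := not_le.1 hcon
      have h3 : tr B' v' = tr B v' := eq_of_heq (Sigma.mk.inj h1).2
      have h5 := Set.ext_iff.1 h3 ⟨v₀, hlt⟩
      exact hv₀ h5.symm
    exact ((Cardinal.mk_le_mk_of_subset hsub).trans Cardinal.mk_image_le).trans_lt (hV.small' v₀)

variable {𝕜 : Type} [RCLike 𝕜]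

/-- extension of operators on spaces which need not be closed -/
theorem extend_injective {Q : Type} [NormedAddCommGroup Q] [NormedSpace 𝕜 Q] [CompleteSpace Q]
    (hQ : IsInjectiveSpace 𝕜 Q) {X V : Type} [NormedAddCommGroup X] [NormedSpace 𝕜 X]
    [AddCommGroup V] [Module 𝕜 V] (ι : V →ₗ[𝕜] X) (hι : Function.Injective ι) (U : V →ₗ[𝕜] Q)
    (K : ℝ) (hU : ∀ v, ‖U v‖ ≤ K * ‖ι v‖) : ∃ T : X →L[𝕜] Q, ∀ v, T (ι v) = U v := by
  obtain ⟨j, hj⟩ := exists_embed (𝕜 := 𝕜) Q Set.univ dense_univ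
  -- a projection
  have hiso : Isometry j := AddMonoidHomClass.isometry_of_norm j hj
  have hcl : IsClosed (LinearMap.range j.toLinearMap : Set (LI 𝕜 (Set.univ : Set Q))) :=
    hiso.isClosedEmbedding.isClosed_range
  let e : Q ≃ₗ[𝕜] LinearMap.range j.toLinearMap := LinearEquiv.ofInjective j.toLinearMap
    hiso.injective
  have he : ∀ a, ((e a : LinearMap.range j.toLinearMap) : LI 𝕜 (Set.univ : Set Q)) = j a :=
    fun a => rfl
  let S : LinearMap.range j.toLinearMap →L[𝕜] Q :=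
    e.symm.toLinearMap.mkContinuous 1 (fun y => by
      rw [one_mul]
      show ‖e.symm y‖ ≤ ‖y‖
      rw [← hj, ← he, e.apply_symm_apply]
      exact le_rfl)
  obtain ⟨P, hP⟩ := hQ (LI 𝕜 (Set.univ : Set Q)) (LinearMap.range j.toLinearMap) hcl S
  have hPj : ∀ a, P (j a) = a := by
    intro a
    have h1 := hP (e a)
    rw [he] at h1
    rw [h1]
    exact e.symm_apply_apply a
  -- the operator on the range of ι
  let e' : V ≃ₗ[𝕜] LinearMap.range ι := LinearEquiv.ofInjective ι hι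
  have he' : ∀ v, ((e' v : LinearMap.range ι) : X) = ι v := fun v => rfl
  let T₀ : LinearMap.range ι →L[𝕜] LI 𝕜 (Set.univ : Set Q) :=
    (j.toLinearMap.comp (U.comp e'.symm.toLinearMap)).mkContinuous K (fun y => by
      show ‖j (U (e'.symm y))‖ ≤ K * ‖y‖
      rw [hj]
      refine (hU _).trans (le_of_eq ?_)
      rw [← he', e'.apply_symm_apply]
      rfl)
  obtain ⟨T₁, hT₁⟩ := extend_LI (Set.univ : Set Q) (LinearMap.range ι) T₀
  refine ⟨P.comp T₁, fun v => ?_⟩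
  show P (T₁ (ι v)) = U v
  have h2 := hT₁ (e' v)
  rw [he'] at h2
  rw [h2]
  show P (j (U (e'.symm (e' v)))) = U v
  rw [e'.symm_apply_apply, hPj]

/-- operators which vanish on small functions act boundedly on almost disjoint families -/
theorem ad_bound {κ : Cardinal.{0}} (hκ : κ.IsRegular) {I Λ Q' : Type}
    [NormedAddCommGroup Q'] [NormedSpace 𝕜 Q'] (S : LI 𝕜 I →L[𝕜] Q')
    (hS : ∀ f ∈ EE 𝕜 hκ.aleph0_le I, S f = 0) (A : Λ → Set I)
    (hA : ∀ a b, a ≠ b → #(A a ∩ A b : Set I) < κ) (F : Finset Λ) (c : Λ → 𝕜) (M : ℝ)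
    (hM : ∀ a, ‖c a‖ ≤ M) (hM0 : 0 ≤ M) :
    ‖∑ a ∈ F, c a • S (ind 𝕜 (A a))‖ ≤ ‖S‖ * M := by
  classical
  let g : LI 𝕜 I := ∑ a ∈ F, c a • ind 𝕜 (A a)
  have hg : ∀ i, g i = ∑ a ∈ F, c a * (ind 𝕜 (A a)) i := by
    intro i
    show (∑ a ∈ F, c a • ind 𝕜 (A a) : LI 𝕜 I) i = _
    rw [lp.coeFn_sum, Finset.sum_apply]
    rfl
  let X : Set I := ⋃ p : {p : Λ × Λ // p ∈ F ×ˢ F ∧ p.1 ≠ p.2}, A p.1.1 ∩ A p.1.2
  have hX : #X < κ := by
    have hfin : Finite {p : Λ × Λ // p ∈ F ×ˢ F ∧ p.1 ≠ p.2} := by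
      apply Finite.of_injective (fun p : {p : Λ × Λ // p ∈ F ×ˢ F ∧ p.1 ≠ p.2} =>
        (⟨p.1, p.2.1⟩ : {p : Λ × Λ // p ∈ F ×ˢ F}))
      intro p q hpq
      exact Subtype.ext (congrArg (fun x : {p : Λ × Λ // p ∈ F ×ˢ F} => (x : Λ × Λ)) hpq)
    rw [Cardinal.card_iUnion_lt_iff_forall_of_isRegular hκ
      ((Cardinal.lt_aleph0_of_finite _).trans_le hκ.aleph0_le)]
    intro p
    exact hA _ _ p.2.2
  have hone : ∀ i, i ∉ X → ‖g i‖ ≤ M := by
    intro i hi
    rw [hg]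
    by_cases hex : ∃ a ∈ F, i ∈ A a
    · obtain ⟨a, ha, hia⟩ := hex
      rw [Finset.sum_eq_single_of_mem a ha, ind_mem hia, mul_one]
      · exact hM a
      · intro b hb hba
        rw [ind_not_mem, mul_zero]
        intro hib
        exact hi (mem_iUnion.2 ⟨⟨(b, a), Finset.mem_product.2 ⟨hb, ha⟩, hba⟩, hib, hia⟩)
    · push Not at hex
      rw [Finset.sum_eq_zero, norm_zero]
      · exact hM0
      · intro a ha
        rw [ind_not_mem (hex a ha), mul_zero]
  let h : LI 𝕜 I := mkLI (fun i => if i ∈ X then 0 else g i) M (fun i => by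
    by_cases hi : i ∈ X
    · rw [if_pos hi, norm_zero]; exact hM0
    · rw [if_neg hi]; exact hone i hi)
  have hh : ∀ i, h i = if i ∈ X then 0 else g i := fun i => rfl
  have h1 : S g = S h := by
    rw [← sub_eq_zero, ← map_sub]
    apply hS
    apply mem_EE_of_support hκ.aleph0_le _ X hX
    intro i hi
    rw [lp.coeFn_sub, Pi.sub_apply, hh, if_neg hi, sub_self]
  have h2 : ∑ a ∈ F, c a • S (ind 𝕜 (A a)) = S g := by
    show _ = S (∑ a ∈ F, c a • ind 𝕜 (A a))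
    rw [map_sum]
    exact Finset.sum_congr rfl (fun a _ => (map_smul S _ _).symm)
  rw [h2, h1]
  refine (S.le_opNorm h).trans (mul_le_mul_of_nonneg_left ?_ (norm_nonneg _))
  apply LI_norm_le _ _ hM0
  intro i
  rw [hh]
  by_cases hi : i ∈ X
  · rw [if_pos hi, norm_zero]; exact hM0
  · rw [if_neg hi]; exact hone i hi

/-- finitely supported functions as members of `ℓ_∞` -/
noncomputable def finLI (𝕜 : Type) [RCLike 𝕜] (Λ : Type) : (Λ →₀ 𝕜) →ₗ[𝕜] LI 𝕜 Λ where
  toFun := fun c => mkLI c (∑ a ∈ c.support, ‖c a‖) (fun a => by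
    by_cases ha : a ∈ c.support
    · exact Finset.single_le_sum (f := fun a => ‖c a‖) (fun _ _ => norm_nonneg _) ha
    · rw [Finsupp.notMem_support_iff.1 ha, norm_zero]
      exact Finset.sum_nonneg (fun _ _ => norm_nonneg _))
  map_add' := fun c d => by
    ext a
    simp only [mkLI_apply, lp.coeFn_add, Pi.add_apply, Finsupp.coe_add]
  map_smul' := fun r c => by
    ext a
    simp only [mkLI_apply, lp.coeFn_smul, Pi.smul_apply, Finsupp.coe_smul, RingHom.id_apply]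

theorem finLI_apply (Λ : Type) (c : Λ →₀ 𝕜) (a : Λ) : (finLI 𝕜 Λ c) a = c a := rfl

theorem finLI_injective (Λ : Type) : Function.Injective (finLI 𝕜 Λ) := by
  intro c d h
  ext a
  rw [← finLI_apply, h, finLI_apply]

theorem finLI_single (Λ : Type) (a : Λ) : finLI 𝕜 Λ (Finsupp.single a 1) = ind 𝕜 {a} := by
  classical
  ext b
  rw [finLI_apply, Finsupp.single_apply]
  by_cases h : a = b
  · rw [if_pos h, ind_mem (show b ∈ ({a} : Set Λ) from h.symm)]
  · rw [if_neg h, ind_not_mem (show b ∉ ({a} : Set Λ) from fun hh => h hh.symm)]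

/-- **Theorem C.** -/
theorem not_injective_next {κ : Cardinal.{0}} (hκ : κ.IsRegular)
    (hpow : ∀ μ < κ, (2 : Cardinal) ^ μ ≤ κ)
    {Q Z Q' : Type} [NormedAddCommGroup Q] [NormedSpace 𝕜 Q] [CompleteSpace Q]
    [NormedAddCommGroup Z] [NormedSpace 𝕜 Z] [CompleteSpace Z]
    [NormedAddCommGroup Q'] [NormedSpace 𝕜 Q'] [CompleteSpace Q']
    (j : Q →L[𝕜] Z) (π : Z →L[𝕜] Q') (hs : SES j π) (hZ : IsInjectiveSpace 𝕜 Z)
    (hP : PP 𝕜 hκ.aleph0_le Q) (D : Set Q) (hD : Dense D) (hDc : #D ≤ κ)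
    (hQ' : #Q' ≤ 2 ^ κ) : ¬ IsInjectiveSpace 𝕜 Q' := by
  classical
  intro hinj
  have hinf := hκ.aleph0_le
  obtain ⟨I, J, δ, hI, hδ, hJ⟩ := hP
  obtain ⟨T, hT⟩ := hZ (LI 𝕜 I) (EE 𝕜 hκ.aleph0_le I) (isClosed_EE _ I) (j.comp J)
  obtain ⟨c, hc⟩ := hs.bddBelow
  have hc1 : 0 < |c| + 1 := by positivity
  have hδ1 : 0 < δ / (|c| + 1) := div_pos hδ hc1
  obtain ⟨C, hC, hsep⟩ := sep_family hinf hI T (δ / (|c| + 1)) hδ1 (fun i => by
    have h1 := hT ⟨ind 𝕜 {i}, ind_singleton_mem hκ.aleph0_le i⟩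
    have h2 : T (ind 𝕜 {i}) = j (J ⟨ind 𝕜 {i}, ind_singleton_mem hκ.aleph0_le i⟩) := h1
    rw [h2, div_le_iff₀ hc1]
    have h3 := hc (J ⟨ind 𝕜 {i}, ind_singleton_mem hκ.aleph0_le i⟩)
    have h4 := hJ i
    have h5 : c ≤ |c| + 1 := (le_abs_self c).trans (by linarith)
    nlinarith [norm_nonneg (j (J ⟨ind 𝕜 {i}, ind_singleton_mem hκ.aleph0_le i⟩))])
  obtain ⟨Λ, A, hΛ, hAC, hAcard, hAd⟩ := exists_adtree hκ hpow C hC
  set η := δ / (|c| + 1) / 2 with hη
  have hη0 : 0 < η := half_pos hδ1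
  have hS : ∀ f ∈ EE 𝕜 hκ.aleph0_le I, (π.comp T) f = 0 := by
    intro f hf
    have h1 : T f = j (J ⟨f, hf⟩) := hT ⟨f, hf⟩
    show π (T f) = 0
    rw [h1]
    exact (hs.ex _).2 ⟨_, rfl⟩
  let z : Λ → Z := fun a => T (ind 𝕜 (A a))
  have hzsep : ∀ a b, a ≠ b → η ≤ ‖z a - z b‖ := by
    intro a b hab
    apply hsep _ _ (hAC a) (hAC b)
    by_contra hcon
    push Not at hcon
    have h1 : A a ⊆ A a ∩ A b := fun i hi => ⟨hi, hcon i hi⟩
    exact absurd (hAcard a) (not_le.2 ((Cardinal.mk_le_mk_of_subset h1).trans_lt (hAd a b hab)))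
  obtain ⟨K, hK, hpre⟩ := ContinuousLinearMap.exists_preimage_norm_le π hs.surj
  let θ : ℝ := η / (8 * K)
  have hθ : 0 < θ := div_pos hη0 (by positivity)
  let Bad : Set Λ := {a | ‖π (z a)‖ < θ}
  have hBad : #Bad ≤ κ := by
    have h1 : ∀ a : Bad, ∃ q : Q, ‖z a - j q‖ ≤ η / 8 := by
      rintro ⟨a, ha⟩
      obtain ⟨w, hw1, hw2⟩ := hpre (π (z a))
      have h2 : π (z a - w) = 0 := by rw [map_sub, hw1, sub_self]
      obtain ⟨q, hq⟩ := (hs.ex _).1 h2
      refine ⟨q, ?_⟩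
      rw [hq, sub_sub_cancel]
      refine hw2.trans ?_
      have h3 : ‖π (z a)‖ ≤ θ := le_of_lt ha
      calc K * ‖π (z a)‖ ≤ K * θ := mul_le_mul_of_nonneg_left h3 hK.le
        _ = η / 8 := by
          show K * (η / (8 * K)) = η / 8
          field_simp
    choose q hq using h1
    have hsepq : ∀ a b : Bad, a ≠ b → η / 4 / (‖j‖ + 1) ≤ ‖q a - q b‖ := by
      intro a b hne
      have h2 : η ≤ ‖z a - z b‖ := hzsep a b (fun h => hne (Subtype.ext h))
      have h3 : z a - z b = (z a - j (q a)) - (z b - j (q b)) + j (q a - q b) := by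
        rw [map_sub]; abel
      have h4 : ‖z a - z b‖ ≤ ‖z a - j (q a)‖ + ‖z b - j (q b)‖ + ‖j (q a - q b)‖ := by
        rw [h3]
        exact (norm_add_le _ _).trans (add_le_add (norm_sub_le _ _) le_rfl)
      have h5 := j.le_opNorm (q a - q b)
      have h6 := hq a
      have h7 := hq b
      rw [div_le_iff₀ (by positivity)]
      nlinarith [norm_nonneg (q a - q b), norm_nonneg j]
    exact sep_card D hD hDc q _ (by positivity) hsepq
  have hΛinf : ℵ₀ ≤ #Λ := by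
    rw [hΛ]
    exact hinf.trans (Cardinal.cantor κ).le
  have hWinf : Infinite Λ := Cardinal.infinite_iff.2 hΛinf
  have hcard : #(Badᶜ : Set Λ) = 2 ^ κ := by
    rw [Cardinal.mk_compl_of_infinite Bad (by
      rw [hΛ]
      exact hBad.trans_lt (Cardinal.cantor κ)), hΛ]
  -- the operator on finitely supported functions
  let U : ((Badᶜ : Set Λ) →₀ 𝕜) →ₗ[𝕜] Q' :=
    Finsupp.linearCombination 𝕜 (fun a : (Badᶜ : Set Λ) => π (z a))
  have hU : ∀ v, ‖U v‖ ≤ ‖π.comp T‖ * ‖finLI 𝕜 (Badᶜ : Set Λ) v‖ := by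
    intro v
    have h1 : U v = ∑ a ∈ v.support, v a • (π.comp T) (ind 𝕜 (A (a : Λ))) := by
      show Finsupp.linearCombination 𝕜 (fun a : (Badᶜ : Set Λ) => π (z a)) v = _
      rw [Finsupp.linearCombination_apply]
      rfl
    rw [h1]
    exact ad_bound hκ (π.comp T) hS (fun a : (Badᶜ : Set Λ) => A (a : Λ))
      (fun a b hab => hAd _ _ (fun h => hab (Subtype.ext h))) v.support v _
      (fun a => LI_apply_le (finLI 𝕜 (Badᶜ : Set Λ) v) a) (norm_nonneg _)
  obtain ⟨T', hT'⟩ := extend_injective hinj (finLI 𝕜 (Badᶜ : Set Λ)) (finLI_injective _) U _ hU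
  have hinf2 : ℵ₀ ≤ (2 : Cardinal.{0}) ^ κ := hinf.trans (Cardinal.cantor κ).le
  obtain ⟨C', hC', hsep'⟩ := sep_family hinf2 hcard T' θ hθ (fun a => by
    rw [← finLI_single, hT']
    have h1 : U (Finsupp.single a 1) = π (z a) := by
      show Finsupp.linearCombination 𝕜 (fun a : (Badᶜ : Set Λ) => π (z a)) (Finsupp.single a 1) = _
      rw [Finsupp.linearCombination_single, one_smul]
    rw [h1]
    exact not_lt.1 (fun h2 => a.2 h2))
  have hfinal := sep_card (κ := 2 ^ κ) (Set.univ : Set Q') dense_univ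
    (by rw [Cardinal.mk_univ]; exact hQ')
    (fun B : Set C' => T' (ind 𝕜 ((fun x : C' => (x : (Badᶜ : Set Λ))) '' B))) (θ / 2)
    (half_pos hθ) (by
      intro B B' hne
      have hex : ∃ x, ¬ (x ∈ B ↔ x ∈ B') := by
        by_contra hcon
        push Not at hcon
        exact hne (Set.ext hcon)
      obtain ⟨x, hx⟩ := hex
      have hsubC : ∀ B : Set C', (fun x : C' => (x : (Badᶜ : Set Λ))) '' B ⊆ C' := by
        rintro B _ ⟨y, -, rfl⟩
        exact y.2
      have hmem : ∀ B : Set C', ((x : C') : (Badᶜ : Set Λ)) ∈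
          (fun x : C' => (x : (Badᶜ : Set Λ))) '' B ↔ x ∈ B := by
        intro B
        constructor
        · rintro ⟨y, hy, hyx⟩
          rwa [← Subtype.ext hyx]
        · intro h
          exact ⟨x, h, rfl⟩
      by_cases hxB : x ∈ B
      · have hxB' : x ∉ B' := fun h => hx ⟨fun _ => h, fun _ => hxB⟩
        exact hsep' _ _ (hsubC B) (hsubC B') ⟨x, (hmem B).2 hxB, fun h => hxB' ((hmem B').1 h)⟩
      · have hxB' : x ∈ B' := by
          by_contra h
          exact hx ⟨fun h' => absurd h' hxB, fun h' => absurd h' h⟩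
        show _ ≤ ‖T' (ind 𝕜 ((fun x : C' => (x : (Badᶜ : Set Λ))) '' B)) -
          T' (ind 𝕜 ((fun x : C' => (x : (Badᶜ : Set Λ))) '' B'))‖
        rw [norm_sub_rev]
        exact hsep' _ _ (hsubC B') (hsubC B) ⟨x, (hmem B').2 hxB', fun h => hxB ((hmem B).1 h)⟩)
  rw [Cardinal.mk_set, hC'] at hfinal
  exact absurd hfinal (not_le.2 (Cardinal.cantor _))

end Pool.Agent.Y277.IDC
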