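import Mathlib
import Pool.Agent.Y277.IDC.Frame
import Pool.Agent.Y277.IDC.StepC

/-!
# The injective dimension of `c₀`
-/

set_option autoImplicit false

namespace Pool.Agent.Y277.IDC

open Set Cardinal Filter Topology
open Pool.Agent.Helper69.Fd
open scoped ENNReal ZeroAtInfty

variable {𝕜 : Type} [RCLike 𝕜]

theorem isRegular_aleph_nat (n : ℕ) : (ℵ_ (n : Ordinal.{0})).IsRegular := by
  cases n with
  | zero =>
    rw [Nat.cast_zero, Cardinal.aleph_zero]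
    exact Cardinal.isRegular_aleph0
  | succ n =>
    rw [Nat.cast_succ, ← Cardinal.succ_aleph]
    exact Cardinal.isRegular_succ (Cardinal.aleph0_le_aleph _)

theorem PP.congr {κ κ' : Cardinal.{0}} (h : κ = κ') (hκ : ℵ₀ ≤ κ) (hκ' : ℵ₀ ≤ κ') {Q : Type}
    [NormedAddCommGroup Q] [NormedSpace 𝕜 Q] (hP : PP 𝕜 hκ Q) : PP 𝕜 hκ' Q := by
  subst h
  exact hP

/-- a short exact sequence `0 → Q → ℓ_∞(D) → Q' → 0` -/
theorem exists_next (Q : Type) [NormedAddCommGroup Q] [NormedSpace 𝕜 Q] [CompleteSpace Q]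
    (D : Set Q) (hD : Dense D) :
    ∃ (Q' : Type) (_ : NormedAddCommGroup Q') (_ : NormedSpace 𝕜 Q') (_ : CompleteSpace Q')
      (j : Q →L[𝕜] LI 𝕜 D) (π : LI 𝕜 D →L[𝕜] Q'), SES j π := by
  obtain ⟨j, hj⟩ := exists_embed (𝕜 := 𝕜) Q D hD
  obtain ⟨Q', a1, a2, a3, π, hπ⟩ := exists_coker_ban j ⟨1, fun x => by rw [one_mul, hj]⟩
  exact ⟨Q', a1, a2, a3, j, π, hπ⟩

theorem chain (n : ℕ) (h : ∀ k : ℕ, k < n → (2 : Cardinal.{0}) ^ (ℵ_ (k : Ordinal.{0})) =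
      ℵ_ ((k + 1 : ℕ) : Ordinal.{0})) :
    ∃ Q : Ban 𝕜, PP 𝕜 (isRegular_aleph_nat n).aleph0_le Q.C ∧
      (∃ D : Set Q.C, Dense D ∧ #D ≤ ℵ_ (n : Ordinal.{0})) ∧
      ∀ m : ℕ, Gm MB QI (m + n) (⟨C₀(ℕ, 𝕜)⟩ : Ban 𝕜) → Gm MB QI m Q := by
  induction n with
  | zero =>
    refine ⟨⟨C₀(ℕ, 𝕜)⟩, ?_, ?_, fun m hm => hm⟩
    · exact PP.congr (by rw [Nat.cast_zero, Cardinal.aleph_zero]) (le_refl ℵ₀) _ PP_c0
    · obtain ⟨D, hD, hDc⟩ := dense_c0 (𝕜 := 𝕜)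
      exact ⟨D, hD, by rwa [Nat.cast_zero, Cardinal.aleph_zero]⟩
  | succ n ih =>
    obtain ⟨Q, hP, ⟨D, hD, hDc⟩, hG⟩ := ih (fun k hk => h k (hk.trans (Nat.lt_succ_self n)))
    have hreg := isRegular_aleph_nat n
    have hsucc : Order.succ (ℵ_ (n : Ordinal.{0})) = ℵ_ ((n + 1 : ℕ) : Ordinal.{0}) := by
      rw [Cardinal.succ_aleph, Nat.cast_succ]
    obtain ⟨Q', a1, a2, a3, j, π, hs⟩ := exists_next (𝕜 := 𝕜) Q.C D hD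
    refine ⟨⟨Q'⟩, ?_, ⟨Set.univ, dense_univ, ?_⟩, ?_⟩
    · exact PP.congr hsucc (hreg.aleph0_le.trans (Order.le_succ _)) _
        (stepB hreg (hreg.aleph0_le.trans (Order.le_succ _)) j π hs (isInjectiveSpace_LI D)
          hP D hD hDc)
    · rw [Cardinal.mk_univ]
      calc #Q' ≤ #(LI 𝕜 D) := Cardinal.mk_le_of_surjective hs.surj
        _ ≤ 2 ^ (ℵ_ (n : Ordinal.{0})) := mk_LI_le D hreg.aleph0_le hDc
        _ = ℵ_ ((n + 1 : ℕ) : Ordinal.{0}) := h n (Nat.lt_succ_self n)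
    · intro m hm
      have h1 : Gm MB QI (m + 1) Q := by
        apply hG
        have e1 : m + 1 + n = m + (n + 1) := by omega
        rw [e1]
        exact hm
      exact Gm.cosyzygy coFrame_QI m Q ⟨LI 𝕜 D⟩ ⟨Q'⟩ j π hs (MB_of_SES Q ⟨LI 𝕜 D⟩ ⟨Q'⟩ j π hs)
        (relInj_of_QI ⟨LI 𝕜 D⟩ (isInjectiveSpace_LI D)) (isInjectiveSpace_LI D) h1

theorem pow_le (n : ℕ) (h : ∀ k : ℕ, k < n → (2 : Cardinal.{0}) ^ (ℵ_ (k : Ordinal.{0})) =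
      ℵ_ ((k + 1 : ℕ) : Ordinal.{0})) :
    ∀ μ < ℵ_ (n : Ordinal.{0}), (2 : Cardinal.{0}) ^ μ ≤ ℵ_ (n : Ordinal.{0}) := by
  intro μ hμ
  cases n with
  | zero =>
    rw [Nat.cast_zero, Cardinal.aleph_zero] at hμ ⊢
    exact (Cardinal.power_lt_aleph0 (Cardinal.nat_lt_aleph0 2) hμ).le
  | succ n =>
    have h1 : μ ≤ ℵ_ (n : Ordinal.{0}) := by
      rw [Nat.cast_succ, ← Cardinal.succ_aleph] at hμ
      exact Order.lt_succ_iff.1 hμ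
    calc (2 : Cardinal.{0}) ^ μ ≤ 2 ^ (ℵ_ (n : Ordinal.{0})) :=
          Cardinal.power_le_power_left two_ne_zero h1
      _ = _ := h n (Nat.lt_succ_self n)

/-- no injective resolution of length `n + 1` -/
theorem no_res (n : ℕ) (h : ∀ k : ℕ, k < n → (2 : Cardinal.{0}) ^ (ℵ_ (k : Ordinal.{0})) =
      ℵ_ ((k + 1 : ℕ) : Ordinal.{0})) (m : ℕ) (hm : m ≤ n + 1) : ¬ HasInjRes 𝕜 C₀(ℕ, 𝕜) m := by
  intro hres
  have hG := HasInjRes.gmQI hm hres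
  obtain ⟨Q, hP, ⟨D, hD, hDc⟩, hch⟩ := chain (𝕜 := 𝕜) n h
  have hreg := isRegular_aleph_nat n
  obtain ⟨Q', a1, a2, a3, j, π, hs⟩ := exists_next (𝕜 := 𝕜) Q.C D hD
  have h1 : Gm MB QI 1 Q := by
    apply hch
    rw [Nat.add_comm]
    exact hG
  have h2 : Gm MB QI 0 (⟨Q'⟩ : Ban 𝕜) :=
    Gm.cosyzygy coFrame_QI 0 Q ⟨LI 𝕜 D⟩ ⟨Q'⟩ j π hs (MB_of_SES Q ⟨LI 𝕜 D⟩ ⟨Q'⟩ j π hs)
      (relInj_of_QI ⟨LI 𝕜 D⟩ (isInjectiveSpace_LI D)) (isInjectiveSpace_LI D) h1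
  exact not_injective_next hreg (pow_le n h) j π hs (isInjectiveSpace_LI D) hP D hD hDc
    ((Cardinal.mk_le_of_surjective hs.surj).trans (mk_LI_le D hreg.aleph0_le hDc)) h2

theorem injDim_ge (n : ℕ) (h : ∀ k : ℕ, k < n → (2 : Cardinal.{0}) ^ (ℵ_ (k : Ordinal.{0})) =
      ℵ_ ((k + 1 : ℕ) : Ordinal.{0})) : ((n + 2 : ℕ) : ℕ∞) ≤ injDim 𝕜 C₀(ℕ, 𝕜) := by
  unfold injDim
  refine le_iInf (fun m => le_iInf (fun hm => ?_))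
  by_contra hcon
  push Not at hcon
  have h1 : m < n + 2 := by exact_mod_cast hcon
  exact no_res n h m (by omega) hm

theorem injDim_top (h : ∀ k : ℕ, (2 : Cardinal.{0}) ^ (ℵ_ (k : Ordinal.{0})) =
      ℵ_ ((k + 1 : ℕ) : Ordinal.{0})) : injDim 𝕜 C₀(ℕ, 𝕜) = ⊤ := by
  rw [ENat.eq_top_iff_forall_ge]
  intro n
  refine le_trans ?_ (injDim_ge n (fun k _ => h k))
  exact_mod_cast (by omega : n ≤ n + 2)

end Pool.Agent.Y277.IDC
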